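import Mathlib

set_option autoImplicit false

/-! Definability calculus (with parameters) for relations between reals. -/

namespace Pool.Agent.H671T

open FirstOrder FirstOrder.Language Set

variable {L : FirstOrder.Language.{0, 0}} [L.Structure ℝ]

/-- Definability with parameters of a relation between reals. -/
def Df (L : FirstOrder.Language.{0, 0}) [L.Structure ℝ] {α : Type}
    (P : (α → ℝ) → Prop) : Prop :=
  (Set.univ : Set ℝ).Definable L {v : α → ℝ | P v}

namespace Df

variable {α β γ : Type}

theorem congr {P Q : (α → ℝ) → Prop} (h : Df L P) (e : ∀ w, P w ↔ Q w) : Df L Q := by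
  have : P = Q := funext fun w => propext (e w)
  rwa [← this]

theorem and {P Q : (α → ℝ) → Prop} (hP : Df L P) (hQ : Df L Q) :
    Df L (fun w => P w ∧ Q w) := Set.Definable.inter hP hQ

theorem or {P Q : (α → ℝ) → Prop} (hP : Df L P) (hQ : Df L Q) :
    Df L (fun w => P w ∨ Q w) := Set.Definable.union hP hQ

theorem not {P : (α → ℝ) → Prop} (hP : Df L P) :
    Df L (fun w => ¬ P w) := Set.Definable.compl hP

theorem imp {P Q : (α → ℝ) → Prop} (hP : Df L P) (hQ : Df L Q) :
    Df L (fun w => P w → Q w) :=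
  (hP.not.or hQ).congr fun w => by tauto

theorem all_fin {ι : Type} [Finite ι] {P : ι → (α → ℝ) → Prop} (hP : ∀ i, Df L (P i)) :
    Df L (fun w => ∀ i, P i w) := by
  have := Set.definable_iInter_of_finite (A := (Set.univ : Set ℝ)) (L := L) hP
  unfold Df
  convert this using 1
  ext v
  simp

theorem ex_fin {ι : Type} [Finite ι] {P : ι → (α → ℝ) → Prop} (hP : ∀ i, Df L (P i)) :
    Df L (fun w => ∃ i, P i w) := by
  have := Set.definable_iUnion_of_finite (A := (Set.univ : Set ℝ)) (L := L) hP
  unfold Df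
  convert this using 1
  ext v
  simp

theorem const (p : Prop) : Df L (fun _ : α → ℝ => p) := by
  by_cases hp : p
  · have : Df L (fun _ : α → ℝ => True) := by
      unfold Df
      convert Set.definable_univ (A := (Set.univ : Set ℝ)) (L := L) (α := α) using 1
      ext; simp
    exact this.congr fun _ => by simp [hp]
  · have : Df L (fun _ : α → ℝ => False) := by
      unfold Df
      convert Set.definable_empty (A := (Set.univ : Set ℝ)) (L := L) (α := α) using 1
      ext; simp
    exact this.congr fun _ => by simp [hp]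

theorem relabel (σ : α → β) {P : (α → ℝ) → Prop} (hP : Df L P) :
    Df L (fun w : β → ℝ => P (fun i => w (σ i))) :=
  Set.Definable.preimage_comp σ hP

theorem ex [Finite α] [Finite γ] {P : (α ⊕ γ → ℝ) → Prop} (hP : Df L P) :
    Df L (fun w : α → ℝ => ∃ y : γ → ℝ, P (Sum.elim w y)) := by
  have h := Set.Definable.image_comp (A := (Set.univ : Set ℝ)) (L := L) hP
    (Sum.inl : α → α ⊕ γ)
  unfold Df
  convert h using 1
  ext v
  simp only [Set.mem_image, Set.mem_ofPred_eq]
  constructor
  · rintro ⟨y, hy⟩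
    refine ⟨Sum.elim v y, hy, ?_⟩
    funext p; rfl
  · rintro ⟨g, hg, rfl⟩
    refine ⟨fun c => g (Sum.inr c), ?_⟩
    convert hg using 1
    funext i
    cases i <;> rfl

theorem all [Finite α] [Finite γ] {P : (α ⊕ γ → ℝ) → Prop} (hP : Df L P) :
    Df L (fun w : α → ℝ => ∀ y : γ → ℝ, P (Sum.elim w y)) :=
  (hP.not.ex.not).congr fun w => by push Not; rfl

/-- Quantifier over a tuple, functional form. -/
theorem exT [Finite α] [Finite γ] {Q : (γ → ℝ) → (α → ℝ) → Prop}
    (h : Df L (fun w : α ⊕ γ → ℝ => Q (fun c => w (Sum.inr c)) (fun i => w (Sum.inl i)))) :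
    Df L (fun v : α → ℝ => ∃ y : γ → ℝ, Q y v) := h.ex

theorem allT [Finite α] [Finite γ] {Q : (γ → ℝ) → (α → ℝ) → Prop}
    (h : Df L (fun w : α ⊕ γ → ℝ => Q (fun c => w (Sum.inr c)) (fun i => w (Sum.inl i)))) :
    Df L (fun v : α → ℝ => ∀ y : γ → ℝ, Q y v) := h.all

/-- Quantifier over one real, functional form. -/
theorem ex1 [Finite α] {Q : ℝ → (α → ℝ) → Prop}
    (h : Df L (fun w : Option α → ℝ => Q (w none) (fun i => w (some i)))) :
    Df L (fun v : α → ℝ => ∃ y, Q y v) := by
  have h1 := (h.relabel (fun o : Option α => (o.elim (Sum.inr ()) Sum.inl : α ⊕ Unit))).ex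
  refine h1.congr fun w => ?_
  constructor
  · rintro ⟨y, hy⟩
    exact ⟨y (), hy⟩
  · rintro ⟨a, ha⟩
    exact ⟨fun _ => a, ha⟩

theorem all1 [Finite α] {Q : ℝ → (α → ℝ) → Prop}
    (h : Df L (fun w : Option α → ℝ => Q (w none) (fun i => w (some i)))) :
    Df L (fun v : α → ℝ => ∀ y, Q y v) :=
  ((ex1 (Q := fun y v => ¬ Q y v) h.not).not).congr fun w => by push Not; rfl

end Df

/-- A definable function. -/
def DfF (L : FirstOrder.Language.{0, 0}) [L.Structure ℝ] {α : Type} (f : (α → ℝ) → ℝ) : Prop :=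
  Df L (fun w : Option α → ℝ => w none = f (fun i => w (some i)))

section

variable {α β : Type}

theorem df_eq_var (i j : α) : Df L (fun v : α → ℝ => v i = v j) := by
  unfold Df
  rw [Set.Definable]
  refine ⟨Term.equal (Term.var i) (Term.var j), ?_⟩
  ext v
  simp [Formula.Realize, Term.equal]

theorem df_eq_const (i : α) (c : ℝ) : Df L (fun v : α → ℝ => v i = c) := by
  unfold Df
  rw [Set.Definable]
  refine ⟨Term.equal (Term.var i) ((L.con (⟨c, Set.mem_univ c⟩ : (Set.univ : Set ℝ))).term), ?_⟩
  ext v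
  simp [Formula.Realize, Term.equal]

namespace DfF

theorem graph {f : (α → ℝ) → ℝ} (h : DfF L f) {β : Type} (j : β) (σ : α → β) :
    Df L (fun w : β → ℝ => w j = f (fun i => w (σ i))) :=
  Df.relabel (fun o : Option α => o.elim j σ) h

theorem var (i : α) : DfF L (fun v : α → ℝ => v i) := df_eq_var none (some i)

theorem const (c : ℝ) : DfF L (fun _ : α → ℝ => c) := df_eq_const none c

theorem relabel {f : (α → ℝ) → ℝ} (h : DfF L f) (σ : α → β) :
    DfF L (fun w : β → ℝ => f (fun i => w (σ i))) :=
  h.graph none (fun i => some (σ i))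

end DfF

variable [Finite α]

/-- Substitution of a definable function into a definable relation. -/
theorem Df.subst {Q : ℝ → (α → ℝ) → Prop}
    (h : Df L (fun w : Option α → ℝ => Q (w none) (fun i => w (some i))))
    {f : (α → ℝ) → ℝ} (hf : DfF L f) : Df L (fun v => Q (f v) v) := by
  have := Df.ex1 (Q := fun y v => y = f v ∧ Q y v) (Df.and hf h)
  refine this.congr fun v => ?_
  constructor
  · rintro ⟨y, rfl, hy⟩; exact hy
  · intro h; exact ⟨_, rfl, h⟩

theorem DfF.subst {F : ℝ → (α → ℝ) → ℝ}
    (h : DfF L (fun w : Option α → ℝ => F (w none) (fun i => w (some i))))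
    {f : (α → ℝ) → ℝ} (hf : DfF L f) : DfF L (fun v => F (f v) v) := by
  have h1 : Df L (fun w : Option (Option α) → ℝ =>
      w (some none) = F (w none) (fun i => w (some (some i)))) :=
    h.graph (β := Option (Option α)) (some none)
      (fun o => o.elim none (fun i => some (some i)))
  exact Df.subst (Q := fun y (v : Option α → ℝ) => v none = F y (fun i => v (some i))) h1
    (f := fun v : Option α → ℝ => f (fun i => v (some i))) (hf.relabel some)

theorem Df.eq {f g : (α → ℝ) → ℝ} (hf : DfF L f) (hg : DfF L g) : Df L (fun v => f v = g v) :=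
  Df.subst (Q := fun y v => y = g v) hg hf

theorem Df.lt' (hlt : (∅ : Set ℝ).Definable L {v : Fin 2 → ℝ | v 0 < v 1}) {β : Type} (i j : β) :
    Df L (fun v : β → ℝ => v i < v j) := by
  have h0 : Df L (fun v : Fin 2 → ℝ => v 0 < v 1) :=
    Set.Definable.mono hlt (Set.empty_subset _)
  exact h0.relabel ![i, j]

theorem Df.lt (hlt : (∅ : Set ℝ).Definable L {v : Fin 2 → ℝ | v 0 < v 1})
    {f g : (α → ℝ) → ℝ} (hf : DfF L f) (hg : DfF L g) : Df L (fun v => f v < g v) := by
  have h1 : Df L (fun v : Option α → ℝ => v none < g (fun i => v (some i))) :=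
    Df.subst (Q := fun y (v : Option α → ℝ) => v none < y) (Df.lt' hlt _ _) (hg.relabel some)
  exact Df.subst (Q := fun y v => y < g v) h1 hf

theorem Df.le (hlt : (∅ : Set ℝ).Definable L {v : Fin 2 → ℝ | v 0 < v 1})
    {f g : (α → ℝ) → ℝ} (hf : DfF L f) (hg : DfF L g) : Df L (fun v => f v ≤ g v) :=
  (Df.lt hlt hg hf).not.congr fun _ => not_lt

theorem DfF.add (hadd : (∅ : Set ℝ).Definable L {v : Fin 3 → ℝ | v 0 + v 1 = v 2})
    {f g : (α → ℝ) → ℝ} (hf : DfF L f) (hg : DfF L g) : DfF L (fun v => f v + g v) := by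
  have h0 : Df L (fun v : Fin 3 → ℝ => v 0 + v 1 = v 2) :=
    Set.Definable.mono hadd (Set.empty_subset _)
  have h1 : Df L (fun v : Option (Option (Option α)) → ℝ =>
      v (some (some none)) = v (some none) + v none) :=
    (h0.relabel (![some none, none, some (some none)] : Fin 3 → Option (Option (Option α)))).congr
      fun v => by simp [eq_comm]
  have h2 : Df L (fun v : Option (Option α) → ℝ =>
      v (some none) = v none + g (fun i => v (some (some i)))) :=
    Df.subst (Q := fun y (v : Option (Option α) → ℝ) => v (some none) = v none + y) h1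
      (hg.relabel (fun i => some (some i)))
  exact Df.subst (Q := fun y (v : Option α → ℝ) => v none = y + g (fun i => v (some i))) h2
    (hf.relabel some)

theorem DfF.sub (hadd : (∅ : Set ℝ).Definable L {v : Fin 3 → ℝ | v 0 + v 1 = v 2})
    {f g : (α → ℝ) → ℝ} (hf : DfF L f) (hg : DfF L g) : DfF L (fun v => f v - g v) := by
  have h1 : Df L (fun v : Option α → ℝ => v none + g (fun i => v (some i)) =
      f (fun i => v (some i))) :=
    Df.eq (DfF.add hadd (DfF.var none) (hg.relabel some)) (hf.relabel some)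
  exact h1.congr fun v => by constructor <;> intro h <;> linarith

theorem DfF.abs (hlt : (∅ : Set ℝ).Definable L {v : Fin 2 → ℝ | v 0 < v 1})
    (hadd : (∅ : Set ℝ).Definable L {v : Fin 3 → ℝ | v 0 + v 1 = v 2})
    {f : (α → ℝ) → ℝ} (hf : DfF L f) : DfF L (fun v => |f v|) := by
  have hf' : DfF L (fun v : Option α → ℝ => f (fun i => v (some i))) := hf.relabel some
  have h1 : Df L (fun v : Option α → ℝ =>
      (0 ≤ f (fun i => v (some i)) ∧ v none = f (fun i => v (some i))) ∨
      (f (fun i => v (some i)) < 0 ∧ v none = 0 - f (fun i => v (some i)))) :=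
    (((Df.le hlt (DfF.const 0) hf').and (Df.eq (DfF.var none) hf'))).or
      ((Df.lt hlt hf' (DfF.const 0)).and
        (Df.eq (DfF.var none) (DfF.sub hadd (DfF.const 0) hf')))
  refine h1.congr fun v => ?_
  show _ ↔ v none = |f fun i => v (some i)|
  rcases le_or_gt 0 (f fun i => v (some i)) with h | h
  · rw [abs_of_nonneg h]
    constructor
    · rintro (⟨-, h'⟩ | ⟨h', -⟩)
      · exact h'
      · exact absurd h (not_le.2 h')
    · exact fun h' => Or.inl ⟨h, h'⟩
  · rw [abs_of_neg h]
    constructor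
    · rintro (⟨h', -⟩ | ⟨-, h'⟩)
      · exact absurd h (not_lt.2 h')
      · rw [h']; ring
    · exact fun h' => Or.inr ⟨h, by rw [h']; ring⟩

end

end Pool.Agent.H671T
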