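import Mathlib
import Pool.Agent.H671T.Df

set_option autoImplicit false

/-! A canonical point of a set of reals having an interior or an isolated point. -/

namespace Pool.Agent.H671T

open Set Filter Topology

/-- `x` is an interior or isolated point of `A` with radius `r`. -/
def LT (A : Set ℝ) (x r : ℝ) : Prop :=
  x ∈ A ∧ 0 < r ∧ r ≤ 1 ∧ ((∀ y, |y - x| < r → y ∈ A) ∨ (∀ y, y ∈ A → |y - x| < r → y = x))

/-- Bounded region. -/
def Bd (A : Set ℝ) (x : ℝ) : Prop := ∀ z, (∃ s, LT A z s) → |x| ≤ |z| + 1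

/-- The selected point. -/
def Sel (A : Set ℝ) (x : ℝ) : Prop :=
  Bd A x ∧ ∃ r, LT A x r ∧ (∀ x' r', Bd A x' → LT A x' r' → r' ≤ r) ∧
    ∀ x', Bd A x' → LT A x' r → x ≤ x'

theorem Sel.mem {A : Set ℝ} {x : ℝ} (h : Sel A x) : x ∈ A := h.2.choose_spec.1.1

theorem Sel.unique {A : Set ℝ} {x y : ℝ} (hx : Sel A x) (hy : Sel A y) : x = y := by
  obtain ⟨hx1, r, hx2, hx3, hx4⟩ := hx
  obtain ⟨hy1, s, hy2, hy3, hy4⟩ := hy
  have h1 : r = s := le_antisymm (hy3 x r hx1 hx2) (hx3 y s hy1 hy2)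
  subst h1
  exact le_antisymm (hx4 y hy1 hy2) (hy4 x hx1 hx2)

theorem LT.closed {A : Set ℝ} {ε : ℝ} (hε : 0 < ε) :
    IsClosed {p : ℝ × ℝ | LT A p.1 p.2 ∧ ε ≤ p.2} := by
  rw [isClosed_iff_frequently]
  rintro ⟨x, r⟩ hfr
  have hr1 : ε ≤ r := by
    by_contra hlt
    push Not at hlt
    have : ∀ᶠ p : ℝ × ℝ in 𝓝 (x, r), p.2 < ε :=
      (continuous_snd.tendsto (x, r)).eventually (gt_mem_nhds hlt)
    obtain ⟨p, h1, h2⟩ := (hfr.and_eventually this).exists
    exact absurd h1.2 (not_le.2 h2)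
  have hr2 : r ≤ 1 := by
    by_contra hlt
    push Not at hlt
    have : ∀ᶠ p : ℝ × ℝ in 𝓝 (x, r), 1 < p.2 :=
      (continuous_snd.tendsto (x, r)).eventually (lt_mem_nhds hlt)
    obtain ⟨p, h1, h2⟩ := (hfr.and_eventually this).exists
    exact absurd h1.1.2.2.1 (not_le.2 h2)
  have hr0 : 0 < r := hε.trans_le hr1
  have hnear : ∀ y, |y - x| < r → ∀ᶠ p : ℝ × ℝ in 𝓝 (x, r), |y - p.1| < p.2 := by
    intro y hy
    have hc : Continuous fun p : ℝ × ℝ => |y - p.1| := by fun_prop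
    exact (isOpen_lt hc continuous_snd).mem_nhds hy
  have hnx : ∀ δ : ℝ, 0 < δ → ∀ᶠ p : ℝ × ℝ in 𝓝 (x, r), |p.1 - x| < δ := by
    intro δ hδ
    have hc : Continuous fun p : ℝ × ℝ => |p.1 - x| := by fun_prop
    exact (isOpen_lt hc continuous_const).mem_nhds (by simpa using hδ)
  have hor : ∃ᶠ p : ℝ × ℝ in 𝓝 (x, r),
      ((LT A p.1 p.2 ∧ ε ≤ p.2) ∧ ∀ y, |y - p.1| < p.2 → y ∈ A) ∨
      ((LT A p.1 p.2 ∧ ε ≤ p.2) ∧ ∀ y, y ∈ A → |y - p.1| < p.2 → y = p.1) := by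
    refine hfr.mono fun p hp => ?_
    rcases hp.1.2.2.2 with h | h
    · exact Or.inl ⟨hp, h⟩
    · exact Or.inr ⟨hp, h⟩
  rw [frequently_or_distrib] at hor
  rcases hor with hfull | hiso
  · have hall : ∀ y, |y - x| < r → y ∈ A := by
      intro y hy
      obtain ⟨p, h1, h2⟩ := (hfull.and_eventually (hnear y hy)).exists
      exact h1.2 y h2
    exact ⟨⟨hall x (by simpa using hr0), hr0, hr2, Or.inl hall⟩, hr1⟩
  · -- all the nearby isolated centres coincide with `x`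
    have hcent : ∀ p : ℝ × ℝ, ((LT A p.1 p.2 ∧ ε ≤ p.2) ∧
        ∀ y, y ∈ A → |y - p.1| < p.2 → y = p.1) → |p.1 - x| < ε / 2 → p.1 = x := by
      intro p hp hpx
      by_contra hne
      have hpos : 0 < |p.1 - x| := abs_pos.2 (sub_ne_zero.2 hne)
      obtain ⟨q, hq, hqx⟩ := (hiso.and_eventually (hnx (min (ε / 2) |p.1 - x|)
        (lt_min (by linarith) hpos))).exists
      have h1 : |q.1 - x| < ε / 2 := hqx.trans_le (min_le_left _ _)
      have h2 : |q.1 - x| < |p.1 - x| := hqx.trans_le (min_le_right _ _)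
      have h3 : |q.1 - p.1| < ε := by
        have : q.1 - p.1 = (q.1 - x) - (p.1 - x) := by ring
        rw [this]
        exact (abs_sub _ _).trans_lt (by linarith)
      have h4 := hp.2 q.1 hq.1.1.1 (h3.trans_le hp.1.2)
      rw [h4] at h2
      exact lt_irrefl _ h2
    obtain ⟨p, hp, hpx⟩ := (hiso.and_eventually (hnx (ε / 2) (by linarith))).exists
    have hxA : x ∈ A := by
      have := hcent p hp hpx
      rw [← this]; exact hp.1.1.1
    refine ⟨⟨hxA, hr0, hr2, Or.inr fun y hyA hy => ?_⟩, hr1⟩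
    obtain ⟨q, ⟨hq, hqy⟩, hqx⟩ := ((hiso.and_eventually (hnear y hy)).and_eventually
      (hnx (ε / 2) (by linarith))).exists
    have h1 := hcent q hq hqx
    have h2 := hq.2 y hyA hqy
    rw [h2, h1]

theorem Bd.closed (A : Set ℝ) : IsClosed {x | Bd A x} := by
  have : {x | Bd A x} = ⋂ z ∈ {z | ∃ s, LT A z s}, {x : ℝ | |x| ≤ |z| + 1} := by
    ext x
    simp only [Bd, Set.mem_ofPred_eq, Set.mem_iInter]
  rw [this]
  refine isClosed_biInter fun z _ => ?_
  exact isClosed_le (by fun_prop) continuous_const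

theorem exists_sel {A : Set ℝ} (h : ∃ x r, LT A x r) : ∃ x, Sel A x := by
  -- a point in the bounded region
  have hB : ∃ x r, Bd A x ∧ LT A x r := by
    by_contra hcon
    push Not at hcon
    obtain ⟨x0, r0, h0⟩ := h
    set T : Set ℝ := {t | ∃ z s, LT A z s ∧ t = |z|} with hT
    have hTne : T.Nonempty := ⟨|x0|, x0, r0, h0, rfl⟩
    have hTb : BddBelow T := ⟨0, by rintro t ⟨z, s, -, rfl⟩; exact abs_nonneg z⟩
    obtain ⟨t, ⟨z, s, hz, rfl⟩, ht⟩ := exists_lt_of_csInf_lt hTne (lt_add_one (sInf T))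
    apply hcon z s _ hz
    rintro z' ⟨s', hz'⟩
    have := csInf_le hTb (⟨z', s', hz', rfl⟩ : |z'| ∈ T)
    linarith
  obtain ⟨x0, r0, hB0, h0⟩ := hB
  -- compact set
  set G : Set (ℝ × ℝ) := {p | LT A p.1 p.2 ∧ r0 ≤ p.2} ∩ {p | Bd A p.1} with hG
  have hGc : IsCompact G := by
    apply Metric.isCompact_of_isClosed_isBounded
    · exact (LT.closed h0.2.1).inter ((Bd.closed A).preimage continuous_fst)
    · refine (Metric.isBounded_closedBall (x := (0 : ℝ × ℝ)) (r := |x0| + 1)).subset ?_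
      rintro ⟨x, r⟩ ⟨⟨h1, -⟩, h2⟩
      rw [mem_closedBall_zero_iff, Prod.norm_def]
      apply max_le
      · exact h2 x0 ⟨r0, h0⟩
      · rw [Real.norm_eq_abs, abs_of_pos h1.2.1]
        have := h1.2.2.1
        have := abs_nonneg x0
        simp only at *
        linarith
  obtain ⟨⟨x1, r1⟩, hx1, hmax⟩ := hGc.exists_isMaxOn ⟨(x0, r0), ⟨h0, le_rfl⟩, hB0⟩
    continuous_snd.continuousOn
  have hGc2 : IsCompact {x : ℝ | (x, r1) ∈ G} := by
    have : {x : ℝ | (x, r1) ∈ G} = Prod.fst '' (G ∩ {p | p.2 = r1}) := by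
      ext x
      constructor
      · intro hx; exact ⟨(x, r1), ⟨hx, rfl⟩, rfl⟩
      · rintro ⟨⟨a, b⟩, ⟨h1, h2⟩, h3⟩
        simp only [Set.mem_ofPred_eq] at h2 h3
        subst h2; subst h3
        exact h1
    rw [this]
    exact (hGc.inter_right (isClosed_eq continuous_snd continuous_const)).image continuous_fst
  obtain ⟨x2, hx2, hmin⟩ := hGc2.exists_isMinOn ⟨x1, hx1⟩ continuous_id.continuousOn
  refine ⟨x2, hx2.2, r1, hx2.1.1, ?_, ?_⟩
  · intro x' r' hB' h'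
    by_cases hr : r0 ≤ r'
    · exact hmax (⟨⟨h', hr⟩, hB'⟩ : (x', r') ∈ G)
    · exact (not_le.1 hr).le.trans hx1.1.2
  · intro x' hB' h'
    exact hmin (⟨⟨h', hx1.1.2⟩, hB'⟩ : (x', r1) ∈ G)

open Classical in
/-- The canonical point. -/
noncomputable def sel (A : Set ℝ) : ℝ := if h : ∃ x, Sel A x then h.choose else 0

theorem sel_spec {A : Set ℝ} (h : ∃ x r, LT A x r) : Sel A (sel A) := by
  unfold sel
  rw [dif_pos (exists_sel h)]
  exact (exists_sel h).choose_spec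

theorem sel_mem {A : Set ℝ} (h : ∃ x r, LT A x r) : sel A ∈ A := (sel_spec h).mem

theorem eq_sel_iff (A : Set ℝ) (y : ℝ) : y = sel A ↔ Sel A y ∨ ((¬ ∃ x, Sel A x) ∧ y = 0) := by
  unfold sel
  by_cases h : ∃ x, Sel A x
  · rw [dif_pos h]
    constructor
    · rintro rfl; exact Or.inl h.choose_spec
    · rintro (h1 | h1)
      · exact h1.unique h.choose_spec
      · exact absurd h h1.1
  · rw [dif_neg h]
    constructor
    · intro h1; exact Or.inr ⟨h, h1⟩
    · rintro (h1 | h1)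
      · exact absurd ⟨_, h1⟩ h
      · exact h1.2

end Pool.Agent.H671T
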