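import Mathlib
import Pool.Agent.H671T.Sel

set_option autoImplicit false

/-! Definability of the canonical point in families, and canonical tuples. -/

namespace Pool.Agent.H671T

open FirstOrder FirstOrder.Language Set

variable {L : FirstOrder.Language.{0, 0}} [L.Structure ℝ] {α β : Type}

/-- A definable family of sets of reals. -/
def DfS (L : FirstOrder.Language.{0, 0}) [L.Structure ℝ] {α : Type}
    (A : (α → ℝ) → Set ℝ) : Prop :=
  Df L (fun w : Option α → ℝ => w none ∈ A (fun i => w (some i)))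

namespace DfS

theorem relabel {A : (α → ℝ) → Set ℝ} (hA : DfS L A) (σ : α → β) :
    DfS L (fun w : β → ℝ => A (fun i => w (σ i))) :=
  Df.relabel (fun o : Option α => o.elim none (fun i => some (σ i))) hA

theorem mem [Finite α] {A : (α → ℝ) → Set ℝ} (hA : DfS L A) {f : (α → ℝ) → ℝ} (hf : DfF L f) :
    Df L (fun v => f v ∈ A v) :=
  Df.subst (Q := fun y v => y ∈ A v) hA hf

end DfS

section

variable (hlt : (∅ : Set ℝ).Definable L {v : Fin 2 → ℝ | v 0 < v 1})
  (hadd : (∅ : Set ℝ).Definable L {v : Fin 3 → ℝ | v 0 + v 1 = v 2})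
include hlt hadd

theorem DfS.lt [Finite α] {A : (α → ℝ) → Set ℝ} (hA : DfS L A)
    {f g : (α → ℝ) → ℝ} (hf : DfF L f) (hg : DfF L g) :
    Df L (fun v => LT (A v) (f v) (g v)) := by
  have hd : Df L (fun w : Option α → ℝ => |w none - f (fun i => w (some i))| <
      g (fun i => w (some i))) :=
    Df.lt hlt (DfF.abs hlt hadd (DfF.sub hadd (DfF.var none) (hf.relabel some)))
      (hg.relabel some)
  refine (hA.mem hf).and ((Df.lt hlt (DfF.const 0) hg).and ((Df.le hlt hg (DfF.const 1)).and
    (Df.or (Df.all1 (Q := fun y v => |y - f v| < g v → y ∈ A v) ?_)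
      (Df.all1 (Q := fun y v => y ∈ A v → |y - f v| < g v → y = f v) ?_))))
  · exact hd.imp hA
  · exact Df.imp hA (hd.imp (Df.eq (DfF.var none) (hf.relabel some)))

theorem DfS.bd [Finite α] {A : (α → ℝ) → Set ℝ} (hA : DfS L A)
    {f : (α → ℝ) → ℝ} (hf : DfF L f) : Df L (fun v => Bd (A v) (f v)) := by
  refine Df.all1 (Q := fun z v => (∃ s, LT (A v) z s) → |f v| ≤ |z| + 1) ?_
  refine Df.imp (Df.ex1 (Q := fun s (w : Option α → ℝ) => LT (A (fun i => w (some i))) (w none) s)
    ?_) ?_
  · exact DfS.lt hlt hadd (hA.relabel (fun i => some (some i))) (DfF.var _) (DfF.var _)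
  · exact Df.le hlt (DfF.abs hlt hadd (hf.relabel some))
      (DfF.add hadd (DfF.abs hlt hadd (DfF.var none)) (DfF.const 1))

theorem DfS.isSel [Finite α] {A : (α → ℝ) → Set ℝ} (hA : DfS L A)
    {f : (α → ℝ) → ℝ} (hf : DfF L f) : Df L (fun v => Sel (A v) (f v)) := by
  refine (DfS.bd hlt hadd hA hf).and (Df.ex1 (Q := fun r v => LT (A v) (f v) r ∧
    (∀ x' r', Bd (A v) x' → LT (A v) x' r' → r' ≤ r) ∧
    ∀ x', Bd (A v) x' → LT (A v) x' r → f v ≤ x') ?_)
  refine (DfS.lt hlt hadd (hA.relabel some) (hf.relabel some) (DfF.var _)).and (Df.and ?_ ?_)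
  · refine Df.all1 (Q := fun x' (w : Option α → ℝ) => ∀ r', Bd (A (fun i => w (some i))) x' →
      LT (A (fun i => w (some i))) x' r' → r' ≤ w none) ?_
    refine Df.all1 (Q := fun r' (w : Option (Option α) → ℝ) =>
      Bd (A (fun i => w (some (some i)))) (w none) →
      LT (A (fun i => w (some (some i)))) (w none) r' → r' ≤ w (some none)) ?_
    exact (DfS.bd hlt hadd (hA.relabel (fun i => some (some (some i)))) (DfF.var (some none))).imp
      ((DfS.lt hlt hadd (hA.relabel (fun i => some (some (some i)))) (DfF.var (some none))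
        (DfF.var none)).imp (Df.le hlt (DfF.var none) (DfF.var (some (some none)))))
  · refine Df.all1 (Q := fun x' (w : Option α → ℝ) => Bd (A (fun i => w (some i))) x' →
      LT (A (fun i => w (some i))) x' (w none) → f (fun i => w (some i)) ≤ x') ?_
    exact (DfS.bd hlt hadd (hA.relabel (fun i => some (some i))) (DfF.var none)).imp
      ((DfS.lt hlt hadd (hA.relabel (fun i => some (some i))) (DfF.var none)
        (DfF.var (some none))).imp
        (Df.le hlt (hf.relabel (fun i => some (some i))) (DfF.var none)))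

theorem DfS.selF [Finite α] {A : (α → ℝ) → Set ℝ} (hA : DfS L A) :
    DfF L (fun v => sel (A v)) := by
  have h1 : Df L (fun w : Option α → ℝ => Sel (A (fun i => w (some i))) (w none) ∨
      ((¬ ∃ x, Sel (A (fun i => w (some i))) x) ∧ w none = 0)) :=
    (DfS.isSel hlt hadd (hA.relabel some) (DfF.var none)).or
      ((Df.ex1 (Q := fun x (w : Option α → ℝ) => Sel (A (fun i => w (some i))) x)
        (DfS.isSel hlt hadd (hA.relabel (fun i => some (some i))) (DfF.var none))).not.and
        (Df.eq (DfF.var none) (DfF.const 0)))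
  exact h1.congr fun w => (eq_sel_iff _ _).symm

end

/-- The canonical tuple in a set of tuples. -/
noncomputable def selN : (n : ℕ) → Set (Fin n → ℝ) → (Fin n → ℝ)
  | 0, _ => fun i => i.elim0
  | n + 1, A => Fin.cons (sel {x | ∃ a : Fin n → ℝ, (Fin.cons x a : Fin (n + 1) → ℝ) ∈ A})
      (selN n {a | (Fin.cons (sel {x | ∃ a : Fin n → ℝ, (Fin.cons x a : Fin (n + 1) → ℝ) ∈ A}) a :
        Fin (n + 1) → ℝ) ∈ A})

theorem selN_definable (hlt : (∅ : Set ℝ).Definable L {v : Fin 2 → ℝ | v 0 < v 1})
    (hadd : (∅ : Set ℝ).Definable L {v : Fin 3 → ℝ | v 0 + v 1 = v 2}) :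
    ∀ (n : ℕ) {α : Type} [Finite α] (A : (α → ℝ) → Set (Fin n → ℝ)),
      Df L (fun w : α ⊕ Fin n → ℝ => (fun j => w (Sum.inr j)) ∈ A (fun i => w (Sum.inl i))) →
      ∀ i : Fin n, DfF L (fun v => selN n (A v) i) := by
  intro n
  induction n with
  | zero => intro α _ A _ i; exact i.elim0
  | succ n ih =>
    intro α _ A hA i
    -- the first coordinate
    have hS : DfS L (fun v : α → ℝ =>
        {x | ∃ a : Fin n → ℝ, (Fin.cons x a : Fin (n + 1) → ℝ) ∈ A v}) := by
      refine Df.exT (Q := fun (a : Fin n → ℝ) (w : Option α → ℝ) =>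
        (Fin.cons (w none) a : Fin (n + 1) → ℝ) ∈ A (fun i => w (some i))) ?_
      have h1 := hA.relabel (fun s : α ⊕ Fin (n + 1) => (Sum.elim (fun i => Sum.inl (some i))
        (fun j : Fin (n + 1) => (Fin.cons (Sum.inl none) (fun j => Sum.inr j) :
          Fin (n + 1) → Option α ⊕ Fin n) j) s : Option α ⊕ Fin n))
      refine h1.congr fun w => ?_
      have e : (fun j => w (Sum.elim (fun i => Sum.inl (some i))
          (fun j : Fin (n + 1) => (Fin.cons (Sum.inl none) (fun j => Sum.inr j) :
          Fin (n + 1) → Option α ⊕ Fin n) j) (Sum.inr j : α ⊕ Fin (n + 1)))) =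
          (Fin.cons (w (Sum.inl none)) (fun c => w (Sum.inr c)) : Fin (n + 1) → ℝ) := by
        funext j
        refine Fin.cases ?_ (fun j => ?_) j
        · rfl
        · rfl
      rw [e]
      rfl
    have hE := DfS.selF hlt hadd hS
    refine Fin.cases ?_ (fun i => ?_) i
    · exact hE
    · -- the remaining coordinates
      have hB := ih (α := Option α) (fun w : Option α → ℝ =>
        {a | (Fin.cons (w none) a : Fin (n + 1) → ℝ) ∈ A (fun i => w (some i))}) (by
          have h1 := hA.relabel (fun s : α ⊕ Fin (n + 1) => (Sum.elim (fun i => Sum.inl (some i))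
            (fun j : Fin (n + 1) => (Fin.cons (Sum.inl none) (fun j => Sum.inr j) :
              Fin (n + 1) → Option α ⊕ Fin n) j) s : Option α ⊕ Fin n))
          refine h1.congr fun w => ?_
          have e : (fun j => w (Sum.elim (fun i => Sum.inl (some i))
              (fun j : Fin (n + 1) => (Fin.cons (Sum.inl none) (fun j => Sum.inr j) :
              Fin (n + 1) → Option α ⊕ Fin n) j) (Sum.inr j : α ⊕ Fin (n + 1)))) =
              (Fin.cons (w (Sum.inl none)) (fun c => w (Sum.inr c)) : Fin (n + 1) → ℝ) := by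
            funext j
            refine Fin.cases ?_ (fun j => ?_) j
            · rfl
            · rfl
          rw [e]
          rfl) i
      exact DfF.subst (F := fun y (v : α → ℝ) =>
        selN n {a | (Fin.cons y a : Fin (n + 1) → ℝ) ∈ A v} i) hB hE

end Pool.Agent.H671T
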