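import Mathlib
import Pool.Agent.H671T.SelDf
import Pool.Agent.H671S.Core

set_option autoImplicit false

/-! NIP for definable relations with parameters; interpreted fields. -/

namespace Pool.Agent.H671T

open FirstOrder FirstOrder.Language Set

variable {L : FirstOrder.Language.{0, 0}} [L.Structure ℝ] {α β γ : Type}

/-- Every formula has finite VC dimension. -/
def IsNip (L : FirstOrder.Language.{0, 0}) [L.Structure ℝ] : Prop :=
  ∀ (m k : ℕ) (φ : L.Formula (Fin m ⊕ Fin k)), ∃ N : ℕ, ∀ a : Fin N → Fin m → ℝ,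
        ¬ ∀ S : Set (Fin N), ∃ b : Fin k → ℝ,
            ∀ i : Fin N, (φ.Realize (Sum.elim (a i) b) ↔ i ∈ S)

theorem nip_df (hnip : IsNip L) [Finite α] [Finite β] {P : (α ⊕ β → ℝ) → Prop} (hP : Df L P) :
    ∃ N : ℕ, ∀ a : Fin N → α → ℝ, ¬ ∀ S : Set (Fin N), ∃ b : β → ℝ,
      ∀ i : Fin N, (P (Sum.elim (a i) b) ↔ i ∈ S) := by
  classical
  obtain ⟨A0, -, hA0⟩ := Set.definable_iff_finitely_definable.1 hP
  obtain ⟨φ, hφ⟩ := Set.definable_iff_exists_formula_sum.1 hA0
  obtain ⟨m, ⟨eα⟩⟩ := Finite.exists_equiv_fin α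
  obtain ⟨q, ⟨eβ⟩⟩ := Finite.exists_equiv_fin β
  obtain ⟨r, ⟨er⟩⟩ := Finite.exists_equiv_fin (A0 : Set ℝ)
  let σ : (A0 : Set ℝ) ⊕ (α ⊕ β) → Fin m ⊕ Fin (q + r) := fun s =>
    Sum.elim (fun c => Sum.inr (Fin.natAdd q (er c)))
      (Sum.elim (fun i => Sum.inl (eα i)) (fun j => Sum.inr (Fin.castAdd r (eβ j)))) s
  obtain ⟨N, hN⟩ := hnip m (q + r) (φ.relabel σ)
  refine ⟨N, fun a hall => hN (fun i j => a i (eα.symm j)) fun S => ?_⟩
  obtain ⟨b, hb⟩ := hall S
  refine ⟨Fin.append (fun j => b (eβ.symm j)) (fun c => ((er.symm c : (A0 : Set ℝ)) : ℝ)),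
    fun i => ?_⟩
  rw [← hb i, Formula.realize_relabel]
  have h1 : P (Sum.elim (a i) b) ↔ φ.Realize (Sum.elim (↑) (Sum.elim (a i) b)) := by
    have : (Sum.elim (a i) b) ∈ {v | P v} ↔
        (Sum.elim (a i) b) ∈ {v : α ⊕ β → ℝ | φ.Realize (Sum.elim (↑) v)} := by rw [hφ]
    exact this
  rw [h1]
  have e : (Sum.elim (fun j => a i (eα.symm j)) (Fin.append (fun j => b (eβ.symm j))
      (fun c => ((er.symm c : (A0 : Set ℝ)) : ℝ))) ∘ σ) =
      (Sum.elim (fun c : (A0 : Set ℝ) => (c : ℝ)) (Sum.elim (a i) b)) := by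
    funext s
    rcases s with c | i' | j
    · simp [σ]
    · simp [σ]
    · simp [σ]
  rw [e]

/-- Substitution of a constant tuple. -/
theorem Df.substT [Finite α] [Finite γ] {Q : (γ → ℝ) → (α → ℝ) → Prop}
    (h : Df L (fun w : α ⊕ γ → ℝ => Q (fun c => w (Sum.inr c)) (fun i => w (Sum.inl i))))
    (c : γ → ℝ) : Df L (fun v => Q c v) := by
  have h1 : Df L (fun w : α ⊕ γ → ℝ => (∀ j, w (Sum.inr j) = c j) ∧
      Q (fun c => w (Sum.inr c)) (fun i => w (Sum.inl i))) :=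
    (Df.all_fin fun j => df_eq_const _ _).and h
  have h2 := Df.exT (Q := fun (y : γ → ℝ) v => (∀ j, y j = c j) ∧ Q y v) h1
  refine h2.congr fun v => ?_
  constructor
  · rintro ⟨y, hy, h⟩
    rw [show y = c from funext hy] at h
    exact h
  · intro h; exact ⟨c, fun _ => rfl, h⟩

/-- All nonempty definable sets of reals have an interior point or an isolated point. -/
def LocTriv (L : FirstOrder.Language.{0, 0}) [L.Structure ℝ] : Prop :=
  ∀ B : Set ℝ, Df L (fun v : Fin 1 → ℝ => v 0 ∈ B) → B.Nonempty → ∃ x r, LT B x r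

theorem selN_mem (H : LocTriv L) : ∀ (n : ℕ) (A : Set (Fin n → ℝ)),
    Df L (fun v : Fin n → ℝ => v ∈ A) → A.Nonempty → selN n A ∈ A := by
  intro n
  induction n with
  | zero =>
    rintro A - ⟨a, ha⟩
    rwa [Subsingleton.elim (selN 0 A) a]
  | succ n ih =>
    rintro A hA ⟨a, ha⟩
    set B : Set ℝ := {x | ∃ a : Fin n → ℝ, (Fin.cons x a : Fin (n + 1) → ℝ) ∈ A} with hB
    have hBd : Df L (fun v : Fin 1 → ℝ => v 0 ∈ B) := by
      refine Df.exT (Q := fun (a : Fin n → ℝ) (v : Fin 1 → ℝ) =>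
        (Fin.cons (v 0) a : Fin (n + 1) → ℝ) ∈ A) ?_
      refine (hA.relabel (fun j : Fin (n + 1) => (Fin.cons (Sum.inl 0) (fun j => Sum.inr j) :
        Fin (n + 1) → Fin 1 ⊕ Fin n) j)).congr fun w => ?_
      have e : (fun j : Fin (n + 1) => w ((Fin.cons (Sum.inl 0) (fun j => Sum.inr j) :
          Fin (n + 1) → Fin 1 ⊕ Fin n) j)) =
          (Fin.cons (w (Sum.inl 0)) (fun c => w (Sum.inr c)) : Fin (n + 1) → ℝ) := by
        funext j
        refine Fin.cases ?_ (fun j => ?_) j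
        · rfl
        · rfl
      rw [e]
    have hBn : B.Nonempty := ⟨a 0, Fin.tail a, by rwa [Fin.cons_self_tail]⟩
    have hs := sel_mem (H B hBd hBn)
    obtain ⟨a', ha'⟩ := hs
    have hA' : Df L (fun v : Fin n → ℝ => v ∈ {a : Fin n → ℝ |
        (Fin.cons (sel B) a : Fin (n + 1) → ℝ) ∈ A}) := by
      have h1 : Df L (fun w : Option (Fin n) → ℝ =>
          (Fin.cons (w none) (fun i => w (some i)) : Fin (n + 1) → ℝ) ∈ A) := by
        refine (hA.relabel (fun j : Fin (n + 1) => (Fin.cons none (fun j => some j) :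
          Fin (n + 1) → Option (Fin n)) j)).congr fun w => ?_
        have e : (fun j : Fin (n + 1) => w ((Fin.cons none (fun j => some j) :
            Fin (n + 1) → Option (Fin n)) j)) =
            (Fin.cons (w none) (fun c => w (some c)) : Fin (n + 1) → ℝ) := by
          funext j
          refine Fin.cases ?_ (fun j => ?_) j
          · rfl
          · rfl
        rw [e]
      exact Df.subst (Q := fun y (v : Fin n → ℝ) => (Fin.cons y v : Fin (n + 1) → ℝ) ∈ A) h1
        (DfF.const (sel B))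
    exact ih _ hA' ⟨a', ha'⟩

end Pool.Agent.H671T
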