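import Mathlib
import Pool.Agent.H671T.Nip

set_option autoImplicit false

/-! Relations on an interpreted field. -/

namespace Pool.Agent.H671T

open FirstOrder FirstOrder.Language Set

/-- The data of an interpretation of a set `K` in a structure on the reals. -/
structure Interp (L : FirstOrder.Language.{0, 0}) [L.Structure ℝ] (n : ℕ) (K : Type) where
  D : (Fin n → ℝ) → Prop
  f : (Fin n → ℝ) → K
  surj : ∀ x, ∃ a, D a ∧ f a = x
  defD : Df L (fun w : Fin n → ℝ => D w)
  defE : Df L (fun w : Fin n ⊕ Fin n → ℝ => D (fun j => w (Sum.inl j)) ∧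
    D (fun j => w (Sum.inr j)) ∧ f (fun j => w (Sum.inl j)) = f (fun j => w (Sum.inr j)))

namespace Interp

variable {L : FirstOrder.Language.{0, 0}} [L.Structure ℝ] {n : ℕ} {K : Type}
variable (I : Interp L n K)

/-- A relation on `K` is good if its pullback to tuples is definable. -/
def Good {α : Type} (R : (α → K) → Prop) : Prop :=
  Df L (fun w : α × Fin n → ℝ => (∀ i, I.D (fun j => w (i, j))) ∧
    R (fun i => I.f (fun j => w (i, j))))

variable {I} {α β γ : Type}

theorem allD [Finite α] : Df L (fun w : α × Fin n → ℝ => ∀ i, I.D (fun j => w (i, j))) :=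
  Df.all_fin fun i => I.defD.relabel (fun j => (i, j))

namespace Good

theorem congr {P Q : (α → K) → Prop} (h : I.Good P) (e : ∀ x, P x ↔ Q x) : I.Good Q := by
  have : P = Q := funext fun w => propext (e w)
  rwa [← this]

theorem and {P Q : (α → K) → Prop} (hP : I.Good P) (hQ : I.Good Q) :
    I.Good (fun x => P x ∧ Q x) :=
  (Df.and hP hQ).congr fun w => by tauto

theorem not [Finite α] {P : (α → K) → Prop} (hP : I.Good P) :
    I.Good (fun x => ¬ P x) :=
  (Df.and allD (Df.not hP)).congr fun w => by tauto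

theorem or [Finite α] {P Q : (α → K) → Prop} (hP : I.Good P) (hQ : I.Good Q) :
    I.Good (fun x => P x ∨ Q x) :=
  (Df.or hP hQ).congr fun w => by tauto

theorem imp [Finite α] {P Q : (α → K) → Prop} (hP : I.Good P) (hQ : I.Good Q) :
    I.Good (fun x => P x → Q x) :=
  (hP.not.or hQ).congr fun x => by tauto

theorem relabel [Finite β] (σ : α → β) {P : (α → K) → Prop} (hP : I.Good P) :
    I.Good (fun x : β → K => P (fun i => x (σ i))) :=
  (Df.and allD (Df.relabel (Prod.map σ id) hP)).congr fun w =>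
    ⟨fun h => ⟨h.1, h.2.2⟩, fun h => ⟨h.1, fun i => h.1 _, h.2⟩⟩

theorem ex1 [Finite α] {Q : K → (α → K) → Prop}
    (h : I.Good (fun x : Option α → K => Q (x none) (fun i => x (some i)))) :
    I.Good (fun x : α → K => ∃ y, Q y x) := by
  have h1 := h.relabel id
  have h2 := Df.exT (γ := Fin n) (Q := fun (y : Fin n → ℝ) (w : α × Fin n → ℝ) =>
    (I.D y ∧ ∀ i, I.D (fun j => w (i, j))) ∧ Q (I.f y) (fun i => I.f (fun j => w (i, j))))
    (by
      refine (Df.relabel (fun p : Option α × Fin n =>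
        (p.1.elim (Sum.inr p.2) (fun i => Sum.inl (i, p.2)) : (α × Fin n) ⊕ Fin n)) h).congr
          fun w => ?_
      constructor
      · rintro ⟨h1, h2⟩
        exact ⟨⟨h1 none, fun i => h1 (some i)⟩, h2⟩
      · rintro ⟨⟨h1, h1'⟩, h2⟩
        exact ⟨fun o => by cases o with
          | none => exact h1
          | some i => exact h1' i, h2⟩)
  refine h2.congr fun w => ?_
  constructor
  · rintro ⟨y, ⟨hy, hD⟩, hq⟩
    exact ⟨hD, _, hq⟩
  · rintro ⟨hD, y, hq⟩
    obtain ⟨a, ha1, ha2⟩ := I.surj y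
    exact ⟨a, ⟨ha1, hD⟩, by rw [ha2]; exact hq⟩

theorem all1 [Finite α] {Q : K → (α → K) → Prop}
    (h : I.Good (fun x : Option α → K => Q (x none) (fun i => x (some i)))) :
    I.Good (fun x : α → K => ∀ y, Q y x) :=
  ((ex1 (Q := fun y x => ¬ Q y x) h.not).not).congr fun x => by push Not; rfl

end Good

/-- The canonical representative. -/
noncomputable def rep (I : Interp L n K) (x : K) : Fin n → ℝ := selN n {a | I.D a ∧ I.f a = x}

theorem class_def (I : Interp L n K) (x : K) :
    Df L (fun v : Fin n → ℝ => v ∈ {a | I.D a ∧ I.f a = x}) := by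
  obtain ⟨c, hc1, hc2⟩ := I.surj x
  have h := Df.substT (α := Fin n) (γ := Fin n) (Q := fun (c : Fin n → ℝ) (v : Fin n → ℝ) =>
    I.D v ∧ I.D c ∧ I.f v = I.f c) I.defE c
  refine h.congr fun v => ?_
  constructor
  · rintro ⟨h1, -, h2⟩
    exact ⟨h1, h2.trans hc2⟩
  · rintro ⟨h1, h2⟩
    exact ⟨h1, hc1, h2.trans hc2.symm⟩

theorem rep_spec (H : LocTriv L) (I : Interp L n K) (x : K) :
    I.D (I.rep x) ∧ I.f (I.rep x) = x := by
  obtain ⟨c, hc⟩ := I.surj x
  exact selN_mem H n _ (I.class_def x) ⟨c, hc⟩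

theorem rep_injective (H : LocTriv L) (I : Interp L n K) : Function.Injective I.rep :=
  fun x y h => by rw [← (I.rep_spec H x).2, ← (I.rep_spec H y).2, h]

/-- The coordinates of the canonical representative as functions of a tuple. -/
noncomputable def cls (I : Interp L n K) (i : Fin n) (w : Fin n → ℝ) : ℝ :=
  selN n {a | I.D w ∧ I.D a ∧ I.f w = I.f a} i

theorem cls_eq (I : Interp L n K) (i : Fin n) (w : Fin n → ℝ) (hw : I.D w) :
    I.cls i w = I.rep (I.f w) i := by
  have e : {a | I.D w ∧ I.D a ∧ I.f w = I.f a} = {a | I.D a ∧ I.f a = I.f w} := by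
    ext a
    constructor
    · rintro ⟨-, h1, h2⟩; exact ⟨h1, h2.symm⟩
    · rintro ⟨h1, h2⟩; exact ⟨hw, h1, h2.symm⟩
  unfold cls rep
  rw [e]

theorem cls_def (hlt : (∅ : Set ℝ).Definable L {v : Fin 2 → ℝ | v 0 < v 1})
    (hadd : (∅ : Set ℝ).Definable L {v : Fin 3 → ℝ | v 0 + v 1 = v 2})
    (I : Interp L n K) (i : Fin n) : DfF L (I.cls i) :=
  selN_definable hlt hadd n (fun w : Fin n → ℝ => {a | I.D w ∧ I.D a ∧ I.f w = I.f a}) I.defE i

/-- The linear order on `K`. -/
noncomputable def ht (I : Interp L n K) (x : K) : Lex (Fin n → ℝ) := toLex (I.rep x)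

theorem ht_injective (H : LocTriv L) (I : Interp L n K) : Function.Injective I.ht :=
  fun _ _ h => I.rep_injective H h

/-- Definability of conditions on coordinates of representatives. -/
theorem good_of_df [Finite α] {P : (α × Fin n → ℝ) → Prop}
    (hlt : (∅ : Set ℝ).Definable L {v : Fin 2 → ℝ | v 0 < v 1})
    (hadd : (∅ : Set ℝ).Definable L {v : Fin 3 → ℝ | v 0 + v 1 = v 2})
    (hP : Df L P) : I.Good (fun x : α → K => P (fun p => I.rep (x p.1) p.2)) := by
  have h1 : Df L (fun w : (α × Fin n) ⊕ (α × Fin n) → ℝ =>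
      (∀ p : α × Fin n, w (Sum.inr p) = I.cls p.2 (fun j => w (Sum.inl (p.1, j)))) ∧
      P (fun p => w (Sum.inr p))) := by
    refine (Df.all_fin fun p => ?_).and (hP.relabel Sum.inr)
    exact (cls_def hlt hadd I p.2).graph (Sum.inr p) (fun j => Sum.inl (p.1, j))
  have h2 := Df.exT (γ := α × Fin n) (Q := fun (y : α × Fin n → ℝ) (w : α × Fin n → ℝ) =>
    (∀ p : α × Fin n, y p = I.cls p.2 (fun j => w (p.1, j))) ∧ P y) h1
  refine (Df.and (allD (I := I)) h2).congr fun w => ?_
  constructor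
  · rintro ⟨hD, y, hy, hPy⟩
    refine ⟨hD, ?_⟩
    have : y = fun p => I.rep (I.f (fun j => w (p.1, j))) p.2 := by
      funext p
      rw [hy p, I.cls_eq _ _ (hD p.1)]
    rw [this] at hPy
    exact hPy
  · rintro ⟨hD, hPy⟩
    refine ⟨hD, _, fun p => ?_, hPy⟩
    rw [I.cls_eq _ _ (hD p.1)]

section
variable (hlt : (∅ : Set ℝ).Definable L {v : Fin 2 → ℝ | v 0 < v 1})
  (hadd : (∅ : Set ℝ).Definable L {v : Fin 3 → ℝ | v 0 + v 1 = v 2})
include hlt hadd

theorem good_lt [Finite α] (i j : α) :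
    I.Good (fun x : α → K => I.ht (x i) < I.ht (x j)) := by
  have h2 : Df L (fun w : α × Fin n → ℝ =>
      ∃ p : Fin n, (∀ q, q < p → w (i, q) = w (j, q)) ∧ w (i, p) < w (j, p)) :=
    Df.ex_fin fun p => (Df.all_fin fun q =>
      (Df.const (q < p)).imp (df_eq_var _ _)).and (Df.lt' hlt _ _)
  refine (good_of_df hlt hadd h2).congr fun x => ?_
  rfl

end

end Interp

end Pool.Agent.H671T
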