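import Mathlib
import Pool.Agent.H671T.Interp

set_option autoImplicit false

/-! Cantor-Bendixson derivatives of definable sets of reals. -/

namespace Pool.Agent.H671T

open FirstOrder FirstOrder.Language Set Filter Topology

/-- A discrete set of reals. -/
def Disc (D : Set ℝ) : Prop := ∀ x ∈ D, ∃ ε > 0, ∀ y ∈ D, |y - x| < ε → y = x

/-- The derivative. -/
def der (B : Set ℝ) : Set ℝ := {x | x ∈ B ∧ ∀ ε, 0 < ε → ∃ y, y ∈ B ∧ y ≠ x ∧ |y - x| < ε}

theorem der_subset (B : Set ℝ) : der B ⊆ B := fun _ h => h.1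

theorem iter_der_subset (B : Set ℝ) (N : ℕ) : der^[N] B ⊆ B := by
  induction N with
  | zero => exact subset_rfl
  | succ N ih => rw [Function.iterate_succ_apply']; exact (der_subset _).trans ih

theorem iter_der_empty_aux (B : Set ℝ) : ∀ (N : ℕ) (D : Fin N → Set ℝ), (∀ i, Disc (D i)) →
    ∀ U : Set ℝ, IsOpen U → B ∩ U ⊆ ⋃ i, D i → der^[N] B ∩ U = ∅ := by
  intro N
  induction N with
  | zero =>
    intro D _ U _ h
    rw [Set.eq_empty_iff_forall_notMem]
    intro x hx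
    obtain ⟨i, -⟩ := Set.mem_iUnion.1 (h hx)
    exact i.elim0
  | succ N ih =>
    intro D hD U hU h
    rw [Set.eq_empty_iff_forall_notMem]
    rintro x ⟨hx, hxU⟩
    rw [Function.iterate_succ_apply'] at hx
    obtain ⟨i0, hi0⟩ := Set.mem_iUnion.1 (h ⟨iter_der_subset B N hx.1, hxU⟩)
    obtain ⟨ε, hε, hiso⟩ := hD i0 x hi0
    obtain ⟨δ, hδ, hball⟩ := Metric.isOpen_iff.1 hU x hxU
    have hU' : IsOpen ((U ∩ Metric.ball x ε) \ {x}) :=
      (hU.inter Metric.isOpen_ball).sdiff isClosed_singleton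
    have h1 := ih (fun i => D (i0.succAbove i)) (fun i => hD _) _ hU' (by
      rintro y ⟨hyB, ⟨hyU, hyb⟩, hyx⟩
      obtain ⟨i, hi⟩ := Set.mem_iUnion.1 (h ⟨hyB, hyU⟩)
      have hne : i ≠ i0 := by
        rintro rfl
        apply hyx
        apply hiso y hi
        rwa [Metric.mem_ball, Real.dist_eq] at hyb
      obtain ⟨k, rfl⟩ := Fin.exists_succAbove_eq hne
      exact Set.mem_iUnion.2 ⟨k, hi⟩)
    obtain ⟨y, hy, hyx, hyd⟩ := hx.2 (min ε δ) (lt_min hε hδ)
    have : y ∈ der^[N] B ∩ ((U ∩ Metric.ball x ε) \ {x}) := by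
      refine ⟨hy, ⟨hball ?_, ?_⟩, hyx⟩
      · rw [Metric.mem_ball, Real.dist_eq]; exact hyd.trans_le (min_le_right _ _)
      · rw [Metric.mem_ball, Real.dist_eq]; exact hyd.trans_le (min_le_left _ _)
    rw [h1] at this
    exact this

theorem iter_der_empty (B : Set ℝ) (N : ℕ) (D : Fin N → Set ℝ) (hD : ∀ i, Disc (D i))
    (h : B ⊆ ⋃ i, D i) : der^[N] B = ∅ := by
  have := iter_der_empty_aux B N D hD Set.univ isOpen_univ (by rwa [Set.inter_univ])
  rwa [Set.inter_univ] at this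

/-- Isolation of radius `ε`. -/
def Iso (B : Set ℝ) (p ε : ℝ) : Prop := p ∈ B ∧ ∀ q, q ∈ B → |q - p| < ε → q = p

theorem exists_iso (B : Set ℝ) (N : ℕ) (h : der^[N] B = ∅) (p : ℝ) (hp : p ∈ B) :
    ∃ j : Fin N, ∃ ε > 0, Iso (der^[j] B) p ε := by
  classical
  have hex : ∃ j, p ∉ der^[j] B := ⟨N, by rw [h]; exact fun h' => h'⟩
  have h0 : Nat.find hex ≠ 0 := by
    intro h0
    have := Nat.find_spec hex
    rw [h0] at this
    exact this hp
  obtain ⟨j, hj⟩ := Nat.exists_eq_succ_of_ne_zero h0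
  have hle : Nat.find hex ≤ N := Nat.find_min' hex (by rw [h]; exact fun h' => h')
  have h1 := Nat.find_min hex (m := j) (by omega)
  have h2 := Nat.find_spec hex
  rw [hj] at h2
  push Not at h1
  rw [Function.iterate_succ_apply'] at h2
  have h3 : ¬ ∀ ε, 0 < ε → ∃ y, y ∈ der^[j] B ∧ y ≠ p ∧ |y - p| < ε := fun h' => h2 ⟨h1, h'⟩
  push Not at h3
  obtain ⟨ε, hε, h3⟩ := h3
  refine ⟨⟨j, by omega⟩, ε, hε, h1, fun q hq hqp => ?_⟩
  by_contra hne
  exact absurd (h3 q hq hne) (not_le.2 hqp)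

theorem Iso.mono {B : Set ℝ} {p ε ε' : ℝ} (h : Iso B p ε) (hε : ε' ≤ ε) : Iso B p ε' :=
  ⟨h.1, fun q hq hqp => h.2 q hq (hqp.trans_le hε)⟩

theorem finite_iso (B : Set ℝ) {ε : ℝ} (hε : 0 < ε) (R : ℝ) :
    {p | |p| ≤ R ∧ Iso B p ε}.Finite := by
  have hinj : Set.InjOn (fun p : ℝ => ⌊p / ε⌋) {p | |p| ≤ R ∧ Iso B p ε} := by
    rintro p ⟨-, hp⟩ q ⟨-, hq⟩ hpq
    apply hq.2 p hp.1
    have := Int.abs_sub_lt_one_of_floor_eq_floor hpq
    rw [← sub_div, abs_div, abs_of_pos hε, div_lt_one hε] at this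
    exact this
  refine Set.Finite.of_finite_image ?_ hinj
  refine (Set.finite_Icc ⌊-R / ε⌋ ⌊R / ε⌋).subset ?_
  rintro _ ⟨p, ⟨hp, -⟩, rfl⟩
  have := abs_le.1 hp
  exact ⟨Int.floor_le_floor (by gcongr; exact this.1), Int.floor_le_floor (by gcongr; exact this.2)⟩

variable {L : FirstOrder.Language.{0, 0}} [L.Structure ℝ] {α β : Type}

/-- A definable set of reals. -/
def Df1 (L : FirstOrder.Language.{0, 0}) [L.Structure ℝ] (B : Set ℝ) : Prop :=
  Df L (fun v : Fin 1 → ℝ => v 0 ∈ B)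

theorem Df1.mem {B : Set ℝ} (hB : Df1 L B) [Finite α] {f : (α → ℝ) → ℝ} (hf : DfF L f) :
    Df L (fun v => f v ∈ B) :=
  Df.subst (Q := fun y _ => y ∈ B)
    (hB.relabel (![none] : Fin 1 → Option α)) hf

section
variable (hlt : (∅ : Set ℝ).Definable L {v : Fin 2 → ℝ | v 0 < v 1})
  (hadd : (∅ : Set ℝ).Definable L {v : Fin 3 → ℝ | v 0 + v 1 = v 2})
include hlt hadd

theorem Df1.der {B : Set ℝ} (hB : Df1 L B) : Df1 L (der B) := by
  refine Df.and hB (Df.all1 (Q := fun ε (v : Fin 1 → ℝ) => 0 < ε →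
    ∃ y, y ∈ B ∧ y ≠ v 0 ∧ |y - v 0| < ε) ?_)
  refine (Df.lt hlt (DfF.const 0) (DfF.var none)).imp
    (Df.ex1 (Q := fun y (w : Option (Fin 1) → ℝ) => y ∈ B ∧ y ≠ w (some 0) ∧
      |y - w (some 0)| < w none) ?_)
  exact (hB.mem (DfF.var none)).and ((Df.eq (DfF.var none) (DfF.var (some (some 0)))).not.and
    (Df.lt hlt (DfF.abs hlt hadd (DfF.sub hadd (DfF.var none) (DfF.var (some (some 0)))))
      (DfF.var (some none))))

theorem Df1.iter_der {B : Set ℝ} (hB : Df1 L B) (N : ℕ) : Df1 L (H671T.der^[N] B) := by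
  induction N with
  | zero => exact hB
  | succ N ih => rw [Function.iterate_succ_apply']; exact Df1.der hlt hadd ih

theorem Df1.iso {B : Set ℝ} (hB : Df1 L B) [Finite α] {f g : (α → ℝ) → ℝ} (hf : DfF L f)
    (hg : DfF L g) : Df L (fun v => Iso B (f v) (g v)) := by
  refine (hB.mem hf).and (Df.all1 (Q := fun q v => q ∈ B → |q - f v| < g v → q = f v) ?_)
  exact (hB.mem (DfF.var none)).imp ((Df.lt hlt (DfF.abs hlt hadd (DfF.sub hadd (DfF.var none)
    (hf.relabel some))) (hg.relabel some)).imp (Df.eq (DfF.var none) (hf.relabel some)))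

end

/-- Definable sets of reals have interior or are finite unions of discrete sets. -/
def IntOrDisc (L : FirstOrder.Language.{0, 0}) [L.Structure ℝ] : Prop :=
  ∀ B : Set ℝ, Df1 L B → (interior B).Nonempty ∨
    ∃ (N : ℕ) (D : Fin N → Set ℝ), (∀ i, Disc (D i)) ∧ B = ⋃ i, D i

theorem lt_of_interior {B : Set ℝ} (h : (interior B).Nonempty) : ∃ x r, LT B x r := by
  obtain ⟨x, hx⟩ := h
  obtain ⟨r, hr, hball⟩ := Metric.isOpen_iff.1 isOpen_interior x hx
  refine ⟨x, min r 1, interior_subset hx, lt_min hr one_pos, min_le_right _ _, Or.inl ?_⟩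
  intro y hy
  apply interior_subset
  apply hball
  rw [Metric.mem_ball, Real.dist_eq]
  exact hy.trans_le (min_le_left _ _)

theorem lt_of_iso {B : Set ℝ} {p ε : ℝ} (hε : 0 < ε) (h : Iso B p ε) : ∃ x r, LT B x r :=
  ⟨p, min ε 1, h.1, lt_min hε one_pos, min_le_right _ _, Or.inr fun y hy hyp =>
    h.2 y hy (hyp.trans_le (min_le_left _ _))⟩

theorem locTriv_of_intOrDisc (H : IntOrDisc L) : LocTriv L := by
  intro B hB hne
  rcases H B hB with h | ⟨N, D, hD, hBD⟩
  · exact lt_of_interior h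
  · have hemp := iter_der_empty B N D hD hBD.subset
    by_contra hcon
    have hderB : der B = B := by
      refine Set.Subset.antisymm (der_subset B) fun x hx => ⟨hx, fun ε hε => ?_⟩
      by_contra h'
      push Not at h'
      apply hcon
      refine lt_of_iso (p := x) hε ⟨hx, fun q hq hqx => ?_⟩
      by_contra hne'
      exact absurd (h' q hq hne') (not_le.2 hqx)
    have : der^[N] B = B := Function.iterate_fixed hderB N
    rw [hemp] at this
    exact hne.ne_empty this.symm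

end Pool.Agent.H671T
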