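import Mathlib
import Pool.Agent.H671T.Der
import Pool.Agent.H671T.Core2

set_option autoImplicit false

/-! Infinite fields interpretable in NIP structures on the reals. -/

namespace Pool.Agent.H671T

open FirstOrder FirstOrder.Language Set Filter Topology Pool.Agent.H671S

namespace Interp

variable {L : FirstOrder.Language.{0, 0}} [L.Structure ℝ] {n : ℕ} {K : Type}
variable {I : Interp L n K} {α β : Type}

/-- A good relation has finite VC dimension. -/
theorem nip_good (hnip : IsNip L) [Finite α] [Finite β] {R : (α ⊕ β → K) → Prop}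
    (hR : I.Good R) : ∃ N : ℕ, ∀ pts : Fin N → α → K, ¬ ∀ S : Set (Fin N), ∃ c : β → K,
      ∀ i : Fin N, (R (Sum.elim (pts i) c) ↔ i ∈ S) := by
  let σ : (α ⊕ β) × Fin n → (α × Fin n) ⊕ (β × Fin n) := fun s =>
    Sum.elim (fun i => Sum.inl (i, s.2)) (fun i => Sum.inr (i, s.2)) s.1
  have h1 := Df.relabel σ hR
  obtain ⟨N, hN⟩ := nip_df hnip h1
  choose r hr1 hr2 using I.surj
  refine ⟨N, fun pts hall => hN (fun i p => r (pts i p.1) p.2) fun S => ?_⟩
  obtain ⟨c, hc⟩ := hall S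
  refine ⟨fun p => r (c p.1) p.2, fun i => ?_⟩
  rw [← hc i]
  have h4 : ∀ s : α ⊕ β, (fun j => (Sum.elim (fun p : α × Fin n => r (pts i p.1) p.2)
      (fun p : β × Fin n => r (c p.1) p.2)) (σ (s, j))) = r (Sum.elim (pts i) c s) := by
    intro s
    funext j
    cases s with
    | inl s => rfl
    | inr s => rfl
  simp only [h4, hr2]
  constructor
  · exact fun h => h.2
  · exact fun h => ⟨fun s => hr1 _, h⟩

section
variable [Field K]
variable (hlt : (∅ : Set ℝ).Definable L {v : Fin 2 → ℝ | v 0 < v 1})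
  (hadd : (∅ : Set ℝ).Definable L {v : Fin 3 → ℝ | v 0 + v 1 = v 2})
  (hA : I.Good (fun x : Fin 3 → K => x 0 + x 1 = x 2))
  (hM : I.Good (fun x : Fin 3 → K => x 0 * x 1 = x 2))

include hA in
theorem good_add [Finite α] (i j k : α) : I.Good (fun x : α → K => x i + x j = x k) :=
  hA.relabel ![i, j, k]

include hM in
theorem good_mul [Finite α] (i j k : α) : I.Good (fun x : α → K => x i * x j = x k) :=
  hM.relabel ![i, j, k]

include hlt hadd hA in
theorem good_lt_add [Finite α] (i j k : α) :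
    I.Good (fun x : α → K => I.ht (x i + x j) < I.ht (x i + x k)) := by
  have h1 : I.Good (fun x : Option (Option α) → K =>
      (x (some (some i)) + x (some (some j)) = x (some none) ∧
        x (some (some i)) + x (some (some k)) = x none) ∧ I.ht (x (some none)) < I.ht (x none)) :=
    ((good_add hA _ _ _).and (good_add hA _ _ _)).and (good_lt hlt hadd _ _)
  have h2 := Good.ex1 (Q := fun b (x : Option α → K) =>
    (x (some i) + x (some j) = x none ∧ x (some i) + x (some k) = b) ∧ I.ht (x none) < I.ht b) h1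
  have h3 := Good.ex1 (Q := fun a (x : α → K) => ∃ b,
    (x i + x j = a ∧ x i + x k = b) ∧ I.ht a < I.ht b) h2
  refine h3.congr fun x => ?_
  constructor
  · rintro ⟨a, b, ⟨h1, h2⟩, h3⟩
    rw [h1, h2]; exact h3
  · intro h
    exact ⟨_, _, ⟨rfl, rfl⟩, h⟩

include hlt hadd hA hM in
theorem good_theta : I.Good (fun x : Fin 1 ⊕ Fin 3 → K =>
    I.ht (x (Sum.inr 0) * x (Sum.inl 0) + x (Sum.inr 1)) <
      I.ht (x (Sum.inr 0) * x (Sum.inl 0) + x (Sum.inr 2))) := by
  have h1 : I.Good (fun x : Option (Fin 1 ⊕ Fin 3) → K =>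
      (x (some (Sum.inr 0)) * x (some (Sum.inl 0)) = x none) ∧
        I.ht (x none + x (some (Sum.inr 1))) < I.ht (x none + x (some (Sum.inr 2)))) :=
    (good_mul hM _ _ _).and (good_lt_add hlt hadd hA _ _ _)
  have h2 := Good.ex1 (Q := fun a (x : Fin 1 ⊕ Fin 3 → K) =>
    (x (Sum.inr 0) * x (Sum.inl 0) = a) ∧
        I.ht (a + x (Sum.inr 1)) < I.ht (a + x (Sum.inr 2))) h1
  refine h2.congr fun x => ?_
  constructor
  · rintro ⟨a, h1, h2⟩
    rw [h1]; exact h2
  · intro h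
    exact ⟨_, rfl, h⟩

include hlt hadd hA hM in
theorem noShatter (hnip : IsNip L) : ∃ k, NoShatter (cmpFam I.ht) k := by
  classical
  obtain ⟨k, hk⟩ := nip_good hnip (good_theta hlt hadd hA hM)
  refine ⟨k, ?_⟩
  intro A hcard
  by_contra hcon
  push Not at hcon
  let e := A.equivFinOfCardEq hcard
  apply hk (fun i _ => (e.symm i : K))
  intro S
  obtain ⟨s, ⟨a, y, y', -, rfl⟩, hs⟩ := hcon (A.filter fun x => ∃ h : x ∈ A, e ⟨x, h⟩ ∈ S)
    (Finset.filter_subset _ _)
  refine ⟨![a, y, y'], fun i => ?_⟩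
  have h1 := hs (e.symm i) (e.symm i).2
  simp only [Finset.mem_filter, Finset.coe_mem, true_and, Subtype.coe_eta,
    Equiv.apply_symm_apply, exists_true_left, Set.mem_ofPred_eq] at h1
  rw [h1]
  rfl

include hlt hadd hA hM in
/-- Interpretable infinite fields have characteristic zero. -/
theorem charZero [Infinite K] (hnip : IsNip L) (H : LocTriv L) : CharZero K := by
  obtain ⟨k, hk⟩ := noShatter hlt hadd hA hM hnip
  exact charZero_of_noShatter I.ht (I.ht_injective H) hk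

end

/-- Isolation of all coordinates at level below `N`. -/
def G {n : ℕ} (P : Set ℝ) (N : ℕ) (y : Fin n → ℝ) (ε : ℝ) : Prop :=
  ∀ i, ∃ j : Fin N, Iso (der^[j] P) (y i) ε

theorem G.mono {n : ℕ} {P : Set ℝ} {N : ℕ} {y : Fin n → ℝ} {ε ε' : ℝ} (h : G P N y ε)
    (hε : ε' ≤ ε) : G P N y ε' := fun i => by
  obtain ⟨j, hj⟩ := h i
  exact ⟨j, hj.mono hε⟩

/-- The family of finite sets. -/
def Fam (I : Interp L n K) (P : Set ℝ) (N : ℕ) (t : K × K) : Set K :=
  {x | (∀ i, ∃ k, |I.rep x i| ≤ |I.rep t.1 k|) ∧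
    ∀ ε, 0 < ε → G P N (I.rep t.2) ε → G P N (I.rep x) ε}

theorem exists_G {P : Set ℝ} {N : ℕ} (hN : der^[N] P = ∅) (y : Fin n → ℝ) (hy : ∀ i, y i ∈ P) :
    ∃ ε > 0, G P N y ε := by
  have h1 : ∀ i, ∀ᶠ ε in 𝓝[>] (0 : ℝ), ∃ j : Fin N, Iso (der^[j] P) (y i) ε := by
    intro i
    obtain ⟨j, ε, hε, hj⟩ := exists_iso P N hN (y i) (hy i)
    filter_upwards [Ioo_mem_nhdsGT hε] with ε' hε'
    exact ⟨j, hj.mono hε'.2.le⟩
  have h2 : ∀ᶠ ε in 𝓝[>] (0 : ℝ), G P N y ε := eventually_all.2 h1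
  obtain ⟨ε, h3, h4⟩ := (h2.and self_mem_nhdsWithin).exists
  exact ⟨ε, h4, h3⟩

theorem fam_finite (H : LocTriv L) {P : Set ℝ} {N : ℕ} (hN : der^[N] P = ∅)
    (hP : ∀ x i, I.rep x i ∈ P) (t : K × K) : (I.Fam P N t).Finite := by
  obtain ⟨ε, hε, hG⟩ := exists_G hN (I.rep t.2) (hP t.2)
  have hfin : (⋃ j : Fin N, {p | |p| ≤ ‖I.rep t.1‖ ∧ Iso (der^[j] P) p ε}).Finite :=
    Set.finite_iUnion fun j => finite_iso _ hε _
  refine Set.Finite.of_finite_image (f := I.rep) ?_ (I.rep_injective H).injOn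
  refine (Set.Finite.pi' (fun _ : Fin n => hfin)).subset ?_
  rintro _ ⟨x, ⟨h1, h2⟩, rfl⟩ i
  obtain ⟨k, hk⟩ := h1 i
  obtain ⟨j, hj⟩ := h2 ε hε hG i
  refine Set.mem_iUnion.2 ⟨j, ?_, hj⟩
  exact hk.trans (norm_le_pi_norm (I.rep t.1) k)

theorem fam_cofinal [Nonempty K] {P : Set ℝ} {N : ℕ} (Q : Set K) (hQ : Q.Finite) :
    ∃ t, Q ⊆ I.Fam P N t := by
  classical
  rcases Q.eq_empty_or_nonempty with rfl | hne
  · exact ⟨(Classical.arbitrary K, Classical.arbitrary K), Set.empty_subset _⟩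
  obtain ⟨t1, -, ht1⟩ := Set.exists_max_image Q (fun x => ‖I.rep x‖) hQ hne
  have hmin : ∃ t2 ∈ Q, ∀ x ∈ Q, ∀ ε, 0 < ε → G P N (I.rep t2) ε → G P N (I.rep x) ε := by
    have key : ∀ Q : Set K, Q.Finite → Q.Nonempty →
        ∃ t2 ∈ Q, ∀ x ∈ Q, ∀ ε, 0 < ε → G P N (I.rep t2) ε → G P N (I.rep x) ε := by
      intro Q hQ
      refine Set.Finite.induction_on Q hQ (fun h => absurd rfl h.ne_empty) ?_
      intro a s _ _ ih _
      rcases s.eq_empty_or_nonempty with rfl | hs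
      · refine ⟨a, Set.mem_insert _ _, ?_⟩
        rintro x (rfl | hx) ε _ h
        · exact h
        · exact absurd hx (Set.notMem_empty x)
      · obtain ⟨t, ht, hts⟩ := ih hs
        by_cases hc : ∀ ε, 0 < ε → G P N (I.rep t) ε → G P N (I.rep a) ε
        · refine ⟨t, Set.mem_insert_of_mem _ ht, ?_⟩
          rintro x (rfl | hx)
          · exact hc
          · exact hts x hx
        · push Not at hc
          obtain ⟨ε0, hε0, h1, h2⟩ := hc
          refine ⟨a, Set.mem_insert _ _, ?_⟩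
          have hle : ∀ ε, 0 < ε → G P N (I.rep a) ε → G P N (I.rep t) ε := by
            intro ε _ h
            apply h1.mono
            by_contra hlt'
            push Not at hlt'
            exact h2 (h.mono hlt'.le)
          rintro x (rfl | hx) ε hε h
          · exact h
          · exact hts x hx ε hε (hle ε hε h)
    exact key Q hQ hne
  obtain ⟨t2, -, ht2⟩ := hmin
  refine ⟨(t1, t2), fun x hx => ⟨fun i => ?_, ht2 x hx⟩⟩
  have : Nonempty (Fin n) := ⟨i⟩
  obtain ⟨k, -, hk⟩ := Finset.exists_max_image (Finset.univ : Finset (Fin n))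
    (fun k => |I.rep t1 k|) Finset.univ_nonempty
  refine ⟨k, ?_⟩
  calc |I.rep x i| ≤ ‖I.rep x‖ := norm_le_pi_norm (I.rep x) i
    _ ≤ ‖I.rep t1‖ := ht1 x hx
    _ ≤ |I.rep t1 k| := (pi_norm_le_iff_of_nonneg (abs_nonneg _)).2
        fun j => hk j (Finset.mem_univ _)

theorem good_fam (hlt : (∅ : Set ℝ).Definable L {v : Fin 2 → ℝ | v 0 < v 1})
    (hadd : (∅ : Set ℝ).Definable L {v : Fin 3 → ℝ | v 0 + v 1 = v 2})
    {P : Set ℝ} (hP : Df1 L P) (N : ℕ) [Finite α] (i j k : α) :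
    I.Good (fun x : α → K => x i ∈ I.Fam P N (x j, x k)) := by
  have h0 : ∀ (β : Type) [Finite β] (s : Fin n → β) (e : β),
      Df L (fun w : β → ℝ => G P N (fun p => w (s p)) (w e)) := by
    intro β _ s e
    exact Df.all_fin fun p => Df.ex_fin fun q =>
      Df1.iso hlt hadd (Df1.iter_der hlt hadd hP q) (DfF.var _) (DfF.var _)
  have h1 : Df L (fun w : α × Fin n → ℝ => (∀ p, ∃ q, |w (i, p)| ≤ |w (j, q)|) ∧
      ∀ ε, 0 < ε → G P N (fun p => w (k, p)) ε → G P N (fun p => w (i, p)) ε) := by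
    refine (Df.all_fin fun p => Df.ex_fin fun q => Df.le hlt
      (DfF.abs hlt hadd (DfF.var _)) (DfF.abs hlt hadd (DfF.var _))).and ?_
    refine Df.all1 (Q := fun ε (w : α × Fin n → ℝ) => 0 < ε →
      G P N (fun p => w (k, p)) ε → G P N (fun p => w (i, p)) ε) ?_
    exact (Df.lt hlt (DfF.const 0) (DfF.var none)).imp
      ((h0 _ (fun p => some (k, p)) none).imp (h0 _ (fun p => some (i, p)) none))
  exact good_of_df hlt hadd h1

section
variable [Field K]
variable (hlt : (∅ : Set ℝ).Definable L {v : Fin 2 → ℝ | v 0 < v 1})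
  (hadd : (∅ : Set ℝ).Definable L {v : Fin 3 → ℝ | v 0 + v 1 = v 2})
  (hA : I.Good (fun x : Fin 3 → K => x 0 + x 1 = x 2))
  (hM : I.Good (fun x : Fin 3 → K => x 0 * x 1 = x 2))

include hlt hadd hA in
theorem good_phi {P : Set ℝ} (hP : Df1 L P) (N : ℕ) :
    I.Good (fun x : Fin 5 ⊕ Fin 1 → K =>
    Phi I.ht (I.Fam P N) (x (Sum.inl 0)) (x (Sum.inl 1), x (Sum.inl 2))
      (x (Sum.inl 3), x (Sum.inl 4)) (x (Sum.inr 0))) := by
  refine Good.ex1 (Q := fun a (x : Fin 5 ⊕ Fin 1 → K) =>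
    a ∈ I.Fam P N (x (Sum.inl 3), x (Sum.inl 4)) ∧
      ¬ (I.ht (x (Sum.inl 0) + x (Sum.inr 0)) < I.ht (x (Sum.inl 0) + a)) ∧
      ∀ b, b ∈ I.Fam P N (x (Sum.inl 1), x (Sum.inl 2)) →
        ¬ (I.ht (x (Sum.inl 0) + x (Sum.inr 0)) < I.ht (x (Sum.inl 0) + b)) →
        I.ht (x (Sum.inl 0) + b) < I.ht (x (Sum.inl 0) + a)) ?_
  refine (good_fam hlt hadd hP N none (some (Sum.inl 3)) (some (Sum.inl 4))).and
    ((good_lt_add hlt hadd hA _ _ _).not.and ?_)
  refine Good.all1 (Q := fun b (x : Option (Fin 5 ⊕ Fin 1) → K) =>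
    b ∈ I.Fam P N (x (some (Sum.inl 1)), x (some (Sum.inl 2))) →
        ¬ (I.ht (x (some (Sum.inl 0)) + x (some (Sum.inr 0))) < I.ht (x (some (Sum.inl 0)) + b)) →
        I.ht (x (some (Sum.inl 0)) + b) < I.ht (x (some (Sum.inl 0)) + x none)) ?_
  exact (good_fam hlt hadd hP N none (some (some (Sum.inl 1))) (some (some (Sum.inl 2)))).imp
    ((good_lt_add hlt hadd hA _ _ _).not.imp (good_lt_add hlt hadd hA _ _ _))

include hlt hadd hA hM in
/-- Under the tameness hypothesis, interpretable infinite fields are uncountable. -/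
theorem not_countable [Infinite K] (hnip : IsNip L) (H : IntOrDisc L) : ¬ Countable K := by
  classical
  intro hcount
  have HL : LocTriv L := locTriv_of_intOrDisc H
  obtain ⟨k, hk⟩ := noShatter hlt hadd hA hM hnip
  -- the set of coordinates
  set P : Set ℝ := {z | ∃ x : K, ∃ i, z = I.rep x i} with hP
  have hPrep : ∀ x i, I.rep x i ∈ P := fun x i => ⟨x, i, rfl⟩
  have hPd : Df1 L P := by
    have h1 := Df.exT (γ := Fin n) (α := Fin 1) (L := L)
      (Q := fun (y : Fin n → ℝ) (v : Fin 1 → ℝ) => I.D y ∧ ∃ i, v 0 = I.cls i y) (by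
        refine (I.defD.relabel Sum.inr).and (Df.ex_fin fun i => ?_)
        exact (cls_def hlt hadd I i).graph (Sum.inl 0) Sum.inr)
    refine h1.congr fun v => ?_
    constructor
    · rintro ⟨y, hy, i, hi⟩
      exact ⟨I.f y, i, by rw [hi, I.cls_eq i y hy]⟩
    · rintro ⟨x, i, hi⟩
      obtain ⟨a, ha1, ha2⟩ := I.surj x
      exact ⟨a, ha1, i, by rw [hi, I.cls_eq i a ha1, ha2]⟩
  have hPc : P.Countable := by
    have : P = ⋃ i, Set.range (fun x : K => I.rep x i) := by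
      ext z
      simp only [hP, Set.mem_ofPred_eq, Set.mem_iUnion, Set.mem_range]
      constructor
      · rintro ⟨x, i, h⟩; exact ⟨i, x, h.symm⟩
      · rintro ⟨i, x, h⟩; exact ⟨x, i, h.symm⟩
    rw [this]
    exact Set.countable_iUnion fun i => Set.countable_range _
  obtain ⟨N, hN⟩ : ∃ N, der^[N] P = ∅ := by
    rcases H P hPd with h | ⟨N, D, hD, hPD⟩
    · exfalso
      obtain ⟨x, hx⟩ := h
      have h1 := hPc.dense_compl ℝ
      obtain ⟨y, hy1, hy2⟩ := h1.inter_open_nonempty _ isOpen_interior ⟨x, hx⟩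
      exact hy2 (interior_subset hy1)
    · exact ⟨N, iter_der_empty P N D hD hPD.subset⟩
  obtain ⟨m, hm⟩ := nip_good hnip (good_phi hlt hadd hA hPd N)
  obtain ⟨x, t, u, hphi⟩ := core I.ht (I.ht_injective HL) (I.Fam P N)
    (fam_finite HL hN hPrep) (fun Q hQ => fam_cofinal Q hQ) hk m
  apply hm (fun i => ![x, (t i).1, (t i).2, (t (i + 1)).1, (t (i + 1)).2])
  intro S
  refine ⟨![u (Finset.univ.filter fun i => i ∈ S)], fun i => ?_⟩
  have := hphi i (Finset.univ.filter fun i => i ∈ S)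
  simp only [Finset.mem_filter, Finset.mem_univ, true_and] at this
  rw [← this]
  rfl

end

end Interp

end Pool.Agent.H671T
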