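import Mathlib
import Pool.Agent.H671T.Main

set_option autoImplicit false

/-! A definable nowhere dense set without isolated points gives the independence property. -/

namespace Pool.Agent.H671T

open FirstOrder FirstOrder.Language Set Filter Topology

/-- Points of `C` with a gap of length `δ` on the left. -/
def Gap (C : Set ℝ) (δ d : ℝ) : Prop := d ∈ C ∧ ∀ y, y ∈ C → y < d → y + δ ≤ d

/-- The coding formula. -/
def Psi (C : Set ℝ) (δ δ' x : ℝ) : Prop :=
  ∃ a, Gap C δ' a ∧ a ≤ x ∧ ∀ b, Gap C δ b → b ≤ x → b < a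

theorem Gap.mono {C : Set ℝ} {δ δ' d : ℝ} (h : Gap C δ d) (hδ : δ' ≤ δ) : Gap C δ' d :=
  ⟨h.1, fun y hy hyd => by have := h.2 y hy hyd; linarith⟩

theorem exists_gap {C : Set ℝ} (hC : IsClosed C) {z y : ℝ} (hz : z ∉ C) (hy : y ∈ C) (hzy : z < y) :
    ∃ d, z < d ∧ d ≤ y ∧ ∃ η > 0, Gap C η d := by
  set T : Set ℝ := C ∩ Set.Ici z with hT
  have hTc : IsClosed T := hC.inter isClosed_Ici
  have hTn : T.Nonempty := ⟨y, hy, hzy.le⟩
  have hTb : BddBelow T := ⟨z, fun t ht => ht.2⟩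
  have hd : sInf T ∈ T := hTc.csInf_mem hTn hTb
  have hzd : z < sInf T := lt_of_le_of_ne hd.2 (fun h => hz (h ▸ hd.1))
  refine ⟨sInf T, hzd, csInf_le hTb ⟨hy, hzy.le⟩, sInf T - z, by linarith, hd.1, ?_⟩
  intro w hw hwd
  have : w < z := by
    by_contra hcon
    push Not at hcon
    exact absurd (csInf_le hTb ⟨hw, hcon⟩) (not_le.2 hwd)
  linarith

section

variable {C : Set ℝ} (hC : IsClosed C) (hint : interior C = ∅)
  (hperf : ∀ x ∈ C, ∀ ε, 0 < ε → ∃ y ∈ C, y ≠ x ∧ |y - x| < ε)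
include hC hint

theorem exists_notMem (a b : ℝ) (hab : a < b) : ∃ z, a < z ∧ z < b ∧ z ∉ C := by
  by_contra hcon
  push Not at hcon
  have : Set.Ioo a b ⊆ interior C := interior_maximal (fun z hz => hcon z hz.1 hz.2) isOpen_Ioo
  rw [hint] at this
  exact this (⟨by linarith, by linarith⟩ : (a + b) / 2 ∈ Set.Ioo a b)

include hperf

theorem exists_next {δ a : ℝ} (hδ : 0 < δ) (ha : Gap C δ a) {ρ : ℝ} (hρ : 0 < ρ) :
    ∃ d, a < d ∧ d < a + ρ ∧ ∃ η > 0, Gap C η d := by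
  obtain ⟨y, hy, hya, hyd⟩ := hperf a ha.1 (min δ ρ) (lt_min hδ hρ)
  have h1 : |y - a| < δ := hyd.trans_le (min_le_left _ _)
  have h2 : |y - a| < ρ := hyd.trans_le (min_le_right _ _)
  have hay : a < y := by
    rcases lt_or_gt_of_ne hya with h | h
    · exfalso
      have := ha.2 y hy h
      have := (abs_lt.1 h1).1
      linarith
    · exact h
  obtain ⟨z, hz1, hz2, hz⟩ := exists_notMem hC hint a y hay
  obtain ⟨d, hd1, hd2, η, hη, hd⟩ := exists_gap hC hz hy hz2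
  exact ⟨d, by linarith, by have := (abs_lt.1 h2).2; linarith, η, hη, hd⟩

theorem step {F : Type} [Finite F] (δ : ℝ) (a : F → ℝ) (hδ : 0 < δ) (ha : ∀ S, Gap C δ (a S))
    (bit : F → Prop) : ∃ (δ' : ℝ) (a' : F → ℝ), 0 < δ' ∧ δ' ≤ δ / 2 ∧ (∀ S, Gap C δ' (a' S)) ∧
      (∀ S, a S ≤ a' S) ∧ (∀ S, a' S < a S + δ / 2) ∧ (∀ S, bit S → a S < a' S) ∧
      (∀ S, ¬ bit S → a' S = a S) := by
  classical
  have h1 : ∀ S, ∃ d, a S < d ∧ d < a S + δ / 2 ∧ ∃ η > 0, Gap C η d := fun S =>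
    exists_next hC hint hperf hδ (ha S) (by linarith)
  choose d hd1 hd2 η hη hd using h1
  have h2 : ∀ᶠ e in 𝓝[>] (0 : ℝ), ∀ S, e ≤ η S := by
    rw [eventually_all]
    intro S
    filter_upwards [Ioo_mem_nhdsGT (hη S)] with e he
    exact he.2.le
  have h3 : ∀ᶠ e in 𝓝[>] (0 : ℝ), e ≤ δ / 2 := by
    filter_upwards [Ioo_mem_nhdsGT (show (0 : ℝ) < δ / 2 by linarith)] with e he
    exact he.2.le
  obtain ⟨e, ⟨he1, he2⟩, he3⟩ := ((h2.and h3).and self_mem_nhdsWithin).exists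
  have he0 : 0 < e := he3
  refine ⟨e, fun S => if bit S then d S else a S, he0, he2, fun S => ?_, fun S => ?_, fun S => ?_,
    fun S h => ?_, fun S h => ?_⟩
  · show Gap C e (if bit S then d S else a S)
    split_ifs
    · exact (hd S).mono (he1 S)
    · exact (ha S).mono (by linarith)
  · show a S ≤ if bit S then d S else a S
    split_ifs
    · exact (hd1 S).le
    · exact le_rfl
  · show (if bit S then d S else a S) < a S + δ / 2
    split_ifs
    · exact hd2 S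
    · linarith
  · show a S < if bit S then d S else a S
    rw [if_pos h]; exact hd1 S
  · show (if bit S then d S else a S) = a S
    rw [if_neg h]

theorem exists_pattern (hne : C.Nonempty) (n : ℕ) : ∃ (δ : ℕ → ℝ) (x : Set (Fin n) → ℝ),
    ∀ (i : Fin n) (S : Set (Fin n)), (Psi C (δ i) (δ (i + 1)) (x S) ↔ i ∈ S) := by
  classical
  -- the start
  obtain ⟨y, hy⟩ := hne
  obtain ⟨z, hz1, hz2, hz⟩ := exists_notMem hC hint (y - 1) y (by linarith)
  obtain ⟨d, -, -, η, hη, hd⟩ := exists_gap hC hz hy hz2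
  let F := Set (Fin n)
  let St := {p : ℝ × (F → ℝ) // 0 < p.1 ∧ ∀ S, Gap C p.1 (p.2 S)}
  let bit : ℕ → F → Prop := fun i S => ∃ h : i < n, (⟨i, h⟩ : Fin n) ∈ S
  have hstep : ∀ (i : ℕ) (s : St), ∃ s' : St, s'.1.1 ≤ s.1.1 / 2 ∧
      (∀ S, s.1.2 S ≤ s'.1.2 S) ∧ (∀ S, s'.1.2 S < s.1.2 S + s.1.1 / 2) ∧
      (∀ S, bit i S → s.1.2 S < s'.1.2 S) ∧ (∀ S, ¬ bit i S → s'.1.2 S = s.1.2 S) := by
    intro i s
    obtain ⟨δ', a', h1, h2, h3, h4, h5, h6, h7⟩ :=
      step hC hint hperf s.1.1 s.1.2 s.2.1 s.2.2 (bit i)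
    exact ⟨⟨(δ', a'), h1, h3⟩, h2, h4, h5, h6, h7⟩
  choose nxt hn1 hn2 hn3 hn4 hn5 using hstep
  let st : ℕ → St := fun i => Nat.rec ⟨(η, fun _ => d), hη, fun _ => hd⟩ (fun i s => nxt i s) i
  have hst : ∀ i, st (i + 1) = nxt i (st i) := fun i => rfl
  set δ : ℕ → ℝ := fun i => (st i).1.1 with hδ
  set a : ℕ → F → ℝ := fun i => (st i).1.2 with ha
  have hpos : ∀ i, 0 < δ i := fun i => (st i).2.1
  have hgap : ∀ i S, Gap C (δ i) (a i S) := fun i => (st i).2.2
  have h1 : ∀ i, δ (i + 1) ≤ δ i / 2 := fun i => by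
    have := hn1 i (st i); rw [← hst] at this; exact this
  have h2 : ∀ i S, a i S ≤ a (i + 1) S := fun i => by
    have := hn2 i (st i); rw [← hst] at this; exact this
  have h3 : ∀ i S, a (i + 1) S < a i S + δ i / 2 := fun i => by
    have := hn3 i (st i); rw [← hst] at this; exact this
  have h4 : ∀ i S, bit i S → a i S < a (i + 1) S := fun i => by
    have := hn4 i (st i); rw [← hst] at this; exact this
  have h5 : ∀ i S, ¬ bit i S → a (i + 1) S = a i S := fun i => by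
    have := hn5 i (st i); rw [← hst] at this; exact this
  have hmono : ∀ i k S, a i S ≤ a (i + k) S := by
    intro i k S
    induction k with
    | zero => exact le_rfl
    | succ k ih => exact ih.trans (h2 _ _)
  have hup : ∀ i k S, a (i + k) S ≤ a i S + (δ i - δ (i + k)) := by
    intro i k S
    induction k with
    | zero => simp
    | succ k ih =>
      have e1 := h3 (i + k) S
      have e2 := h1 (i + k)
      have e3 := hpos (i + k)
      have : i + (k + 1) = i + k + 1 := rfl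
      rw [this]
      linarith
  have hlow : ∀ i k S b, Gap C (δ i) b → b ≤ a (i + k) S → b ≤ a i S := by
    intro i k S b hb hle
    by_contra hcon
    push Not at hcon
    have e1 := hb.2 (a i S) (hgap i S).1 hcon
    have e2 := hup i k S
    have e3 := hpos (i + k)
    linarith
  refine ⟨δ, a n, fun i S => ?_⟩
  obtain ⟨i, hi⟩ := i
  obtain ⟨k, hk⟩ := Nat.exists_eq_add_of_lt hi
  have hk1 : i + (k + 1) = n := by omega
  have hk2 : i + 1 + k = n := by omega
  have hbit : bit i S ↔ (⟨i, hi⟩ : Fin n) ∈ S := ⟨fun ⟨_, h⟩ => h, fun h => ⟨hi, h⟩⟩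
  show Psi C (δ i) (δ (i + 1)) (a n S) ↔ _
  constructor
  · rintro ⟨b, hb1, hb2, hb3⟩
    by_contra hS
    have e1 := h5 i S (fun h => hS (hbit.1 h))
    have e2 : b ≤ a (i + 1) S := hlow (i + 1) k S b hb1 (by rw [hk2]; exact hb2)
    have e3 := hb3 (a i S) (hgap i S) (by rw [← hk1]; exact hmono i (k + 1) S)
    rw [e1] at e2
    exact absurd e3 (not_lt.2 e2)
  · intro hS
    have e1 := h4 i S (hbit.2 hS)
    have e0 : a (i + 1) S ≤ a n S := by
      have := hmono (i + 1) k S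
      rwa [hk2] at this
    refine ⟨a (i + 1) S, hgap (i + 1) S, e0, fun b hb1 hb2 => ?_⟩
    have e2 := hlow i (k + 1) S b hb1 (by rw [hk1]; exact hb2)
    exact e2.trans_lt e1

end

variable {L : FirstOrder.Language.{0, 0}} [L.Structure ℝ]

section
variable (hlt : (∅ : Set ℝ).Definable L {v : Fin 2 → ℝ | v 0 < v 1})
  (hadd : (∅ : Set ℝ).Definable L {v : Fin 3 → ℝ | v 0 + v 1 = v 2})
include hlt hadd

theorem Df1.closure {B : Set ℝ} (hB : Df1 L B) : Df1 L (closure B) := by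
  have h1 : Df L (fun v : Fin 1 → ℝ => ∀ ε, 0 < ε → ∃ y, y ∈ B ∧ |v 0 - y| < ε) := by
    refine Df.all1 (Q := fun ε (v : Fin 1 → ℝ) => 0 < ε → ∃ y, y ∈ B ∧ |v 0 - y| < ε) ?_
    refine (Df.lt hlt (DfF.const 0) (DfF.var none)).imp
      (Df.ex1 (Q := fun y (w : Option (Fin 1) → ℝ) => y ∈ B ∧ |w (some 0) - y| < w none) ?_)
    exact (hB.mem (DfF.var none)).and
      (Df.lt hlt (DfF.abs hlt hadd (DfF.sub hadd (DfF.var (some (some 0))) (DfF.var none)))
        (DfF.var (some none)))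
  refine h1.congr fun v => ?_
  rw [Metric.mem_closure_iff]
  constructor
  · intro h ε hε
    obtain ⟨y, hy, hd⟩ := h ε hε
    exact ⟨y, hy, by rwa [Real.dist_eq]⟩
  · intro h ε hε
    obtain ⟨y, hy, hd⟩ := h ε hε
    exact ⟨y, hy, by rwa [Real.dist_eq] at hd⟩

theorem Df1.gap {C : Set ℝ} (hC : Df1 L C) {α : Type} [Finite α] {f g : (α → ℝ) → ℝ}
    (hf : DfF L f) (hg : DfF L g) : Df L (fun v => Gap C (f v) (g v)) := by
  refine (hC.mem hg).and (Df.all1 (Q := fun y v => y ∈ C → y < g v → y + f v ≤ g v) ?_)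
  exact (hC.mem (DfF.var none)).imp ((Df.lt hlt (DfF.var none) (hg.relabel some)).imp
    (Df.le hlt (DfF.add hadd (DfF.var none) (hf.relabel some)) (hg.relabel some)))

theorem Df1.psi {C : Set ℝ} (hC : Df1 L C) :
    Df L (fun v : Fin 2 ⊕ Fin 1 → ℝ => Psi C (v (Sum.inl 0)) (v (Sum.inl 1)) (v (Sum.inr 0))) := by
  refine Df.ex1 (Q := fun a (v : Fin 2 ⊕ Fin 1 → ℝ) => Gap C (v (Sum.inl 1)) a ∧
    a ≤ v (Sum.inr 0) ∧ ∀ b, Gap C (v (Sum.inl 0)) b → b ≤ v (Sum.inr 0) → b < a) ?_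
  refine (Df1.gap hlt hadd hC (DfF.var _) (DfF.var _)).and ((Df.le hlt (DfF.var _)
    (DfF.var _)).and (Df.all1 (Q := fun b (v : Option (Fin 2 ⊕ Fin 1) → ℝ) =>
      Gap C (v (some (Sum.inl 0))) b → b ≤ v (some (Sum.inr 0)) → b < v none) ?_))
  exact (Df1.gap hlt hadd hC (DfF.var _) (DfF.var _)).imp ((Df.le hlt (DfF.var _)
    (DfF.var _)).imp (Df.lt hlt (DfF.var _) (DfF.var _)))

/-- In a NIP structure, a definable nowhere dense set has isolated points. -/
theorem locTriv_of_noiseless (hnip : IsNip L)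
    (H : ∀ B : Set ℝ, Df1 L B → (interior B).Nonempty ∨ IsNowhereDense B) : LocTriv L := by
  intro B hB hne
  rcases H B hB with h | h
  · exact lt_of_interior h
  · by_contra hcon
    have hBp : ∀ x ∈ B, ∀ ε, 0 < ε → ∃ y ∈ B, y ≠ x ∧ |y - x| < ε := by
      intro x hx ε hε
      by_contra h'
      push Not at h'
      apply hcon
      refine lt_of_iso (p := x) hε ⟨hx, fun q hq hqx => ?_⟩
      by_contra hne'
      exact absurd (h' q hq hne') (not_le.2 hqx)
    have hCp : ∀ x ∈ _root_.closure B, ∀ ε, 0 < ε → ∃ y ∈ _root_.closure B, y ≠ x ∧ |y - x| < ε := by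
      intro x hx ε hε
      obtain ⟨b, hb, hbx⟩ := Metric.mem_closure_iff.1 hx ε hε
      rw [Real.dist_eq, abs_sub_comm] at hbx
      by_cases hxb : b = x
      · subst hxb
        obtain ⟨y, hy, h1, h2⟩ := hBp b hb ε hε
        exact ⟨y, subset_closure hy, h1, h2⟩
      · exact ⟨b, subset_closure hb, hxb, hbx⟩
    obtain ⟨N, hN⟩ := nip_df hnip (Df1.psi hlt hadd (Df1.closure hlt hadd hB))
    obtain ⟨δ, x, hx⟩ := exists_pattern isClosed_closure h hCp (hne.mono subset_closure) N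
    apply hN (fun i => ![δ i, δ (i + 1)])
    intro S
    exact ⟨![x S], fun i => hx i S⟩

end

end Pool.Agent.H671T
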