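import Mathlib
import Pool.Agent.H671T.Cantor

set_option autoImplicit false

/-! From the definition of interpretability to the structure used in the proofs. -/

namespace Pool.Agent.H671T

open FirstOrder FirstOrder.Language Set Filter Topology

variable {L : FirstOrder.Language.{0, 0}} [L.Structure ℝ]

theorem exists_interp {n : ℕ} {X : Set (Fin n → ℝ)} {E : Set (Fin n ⊕ Fin n → ℝ)}
    {A Mu : Set (Fin n ⊕ Fin n ⊕ Fin n → ℝ)}
    (hX : Set.Definable (Set.univ : Set ℝ) L X) (hE : Set.Definable (Set.univ : Set ℝ) L E)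
    (hA : Set.Definable (Set.univ : Set ℝ) L A) (hM : Set.Definable (Set.univ : Set ℝ) L Mu)
    {K : Type} [Field K] (g : (Fin n → ℝ) → K) (hg : g '' X = Set.univ)
    (h1 : ∀ a ∈ X, ∀ b ∈ X, (Sum.elim a b ∈ E ↔ g a = g b))
    (h2 : ∀ a ∈ X, ∀ b ∈ X, ∀ c ∈ X,
            (Sum.elim a (Sum.elim b c) ∈ A ↔ g a + g b = g c))
    (h3 : ∀ a ∈ X, ∀ b ∈ X, ∀ c ∈ X,
            (Sum.elim a (Sum.elim b c) ∈ Mu ↔ g a * g b = g c)) :
    ∃ I : Interp L n K, I.Good (fun x : Fin 3 → K => x 0 + x 1 = x 2) ∧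
      I.Good (fun x : Fin 3 → K => x 0 * x 1 = x 2) := by
  have dX : Df L (fun w : Fin n → ℝ => w ∈ X) := hX
  have dE : Df L (fun w : Fin n ⊕ Fin n → ℝ => w ∈ E) := hE
  have dA : Df L (fun w : Fin n ⊕ Fin n ⊕ Fin n → ℝ => w ∈ A) := hA
  have dM : Df L (fun w : Fin n ⊕ Fin n ⊕ Fin n → ℝ => w ∈ Mu) := hM
  let I : Interp L n K :=
    { D := fun a => a ∈ X
      f := g
      surj := fun x => by
        have : x ∈ g '' X := by rw [hg]; trivial
        obtain ⟨a, ha, hx⟩ := this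
        exact ⟨a, ha, hx⟩
      defD := dX
      defE := by
        refine (((dX.relabel Sum.inl).and (dX.relabel Sum.inr)).and dE).congr fun w => ?_
        have e : w = Sum.elim (fun j => w (Sum.inl j)) (fun j => w (Sum.inr j)) := by
          funext s; cases s <;> rfl
        constructor
        · rintro ⟨⟨ha, hb⟩, hw⟩
          refine ⟨ha, hb, ?_⟩
          rw [e] at hw
          exact (h1 _ ha _ hb).1 hw
        · rintro ⟨ha, hb, hw⟩
          refine ⟨⟨ha, hb⟩, ?_⟩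
          rw [e]
          exact (h1 _ ha _ hb).2 hw }
  let σ : Fin n ⊕ Fin n ⊕ Fin n → Fin 3 × Fin n := fun s =>
    Sum.elim (fun j => (0, j)) (Sum.elim (fun j => (1, j)) (fun j => (2, j))) s
  have hσ : ∀ w : Fin 3 × Fin n → ℝ, (fun s => w (σ s)) =
      Sum.elim (fun j => w (0, j)) (Sum.elim (fun j => w (1, j)) (fun j => w (2, j))) := by
    intro w
    funext s
    rcases s with j | j | j <;> rfl
  refine ⟨I, ?_, ?_⟩
  · refine ((Interp.allD (I := I) (α := Fin 3)).and (dA.relabel σ)).congr fun w => ?_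
    constructor
    · rintro ⟨hD, hw⟩
      refine ⟨hD, ?_⟩
      rw [hσ] at hw
      exact (h2 _ (hD 0) _ (hD 1) _ (hD 2)).1 hw
    · rintro ⟨hD, hw⟩
      refine ⟨hD, ?_⟩
      rw [hσ]
      exact (h2 _ (hD 0) _ (hD 1) _ (hD 2)).2 hw
  · refine ((Interp.allD (I := I) (α := Fin 3)).and (dM.relabel σ)).congr fun w => ?_
    constructor
    · rintro ⟨hD, hw⟩
      refine ⟨hD, ?_⟩
      rw [hσ] at hw
      exact (h3 _ (hD 0) _ (hD 1) _ (hD 2)).1 hw
    · rintro ⟨hD, hw⟩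
      refine ⟨hD, ?_⟩
      rw [hσ]
      exact (h3 _ (hD 0) _ (hD 1) _ (hD 2)).2 hw

theorem disc_of_discreteTopology {D : Set ℝ} (h : DiscreteTopology D) : Disc D := by
  intro x hx
  have h1 : IsOpen ({⟨x, hx⟩} : Set D) := isOpen_discrete _
  obtain ⟨ε, hε, hball⟩ := Metric.isOpen_iff.1 h1 ⟨x, hx⟩ rfl
  refine ⟨ε, hε, fun y hy hyx => ?_⟩
  have : (⟨y, hy⟩ : D) ∈ Metric.ball (⟨x, hx⟩ : D) ε := by
    rw [Metric.mem_ball, Subtype.dist_eq, Real.dist_eq]
    exact hyx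
  have h2 := hball this
  exact congrArg Subtype.val h2

/-- Noiselessness in its literal form gives the dichotomy. -/
theorem noiseless_dichotomy
    (H : ∀ Y : Set ℝ, Set.Definable (Set.univ : Set ℝ) L {v : Fin 1 → ℝ | v 0 ∈ Y} →
      ∀ a b : ℝ, a < b → ¬ (Set.Ioo a b ⊆ closure (Y ∩ Set.Ioo a b) ∧
        Set.Ioo a b ⊆ closure (Set.Ioo a b \ Y))) :
    ∀ B : Set ℝ, Df1 L B → (interior B).Nonempty ∨ IsNowhereDense B := by
  intro B hB
  by_contra hcon
  push Not at hcon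
  obtain ⟨h1, h2⟩ := hcon
  have h2' : (interior (closure B)).Nonempty := Set.nonempty_iff_ne_empty.2 h2
  obtain ⟨x, hx⟩ := h2'
  obtain ⟨ε, hε, hball⟩ := Metric.isOpen_iff.1 isOpen_interior x hx
  rw [Real.ball_eq_Ioo] at hball
  refine H B hB (x - ε) (x + ε) (by linarith) ⟨?_, ?_⟩
  · intro z hz
    have hz' : z ∈ closure B := interior_subset (hball hz)
    have := isOpen_Ioo.inter_closure (s := Set.Ioo (x - ε) (x + ε)) (t := B) ⟨hz, hz'⟩
    rwa [Set.inter_comm] at this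
  · intro z hz
    rw [mem_closure_iff]
    intro o ho hzo
    by_contra hemp
    have : o ∩ Set.Ioo (x - ε) (x + ε) ⊆ interior B := by
      apply interior_maximal _ (ho.inter isOpen_Ioo)
      rintro w ⟨hw1, hw2⟩
      by_contra hwB
      exact hemp ⟨w, hw1, hw2, hwB⟩
    rw [h1] at this
    exact this ⟨hzo, hz⟩

end Pool.Agent.H671T
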